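import Pool.Agent.R728.TH.Hyper

set_option autoImplicit false

open Set Topology Filter Function TopologicalSpace

namespace Pool.Agent.R728.TH

variable {S : Type*} [TopologicalSpace S]

theorem not_noetherian_T1 [T1Space S] [Infinite S] (hS : Thin S) : ¬ NoetherianSpace S := by
  classical
  intro hN
  have hwf : WellFoundedLT (Closeds S) := ((noetherianSpace_TFAE S).out 0 1).1 hN
  obtain ⟨M, hM, hmin⟩ := hwf.wf.has_min {C : Closeds S | (C : Set S).Infinite}
    ⟨⊤, by simpa using infinite_univ⟩
  have hmin' : ∀ K : Set S, IsClosed K → ¬ (M : Set S) ⊆ K → ((M : Set S) ∩ K).Finite := by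
    intro K hK hMK
    by_contra hinf
    refine hmin ⟨(M : Set S) ∩ K, M.isClosed.inter hK⟩ hinf ?_
    refine lt_of_le_of_ne (fun x hx => hx.1) ?_
    intro he
    apply hMK
    rw [← inter_eq_left]
    exact congrArg (fun C : Closeds S => (C : Set S)) he
  have hMi : (M : Set S).Infinite := hM
  obtain ⟨m, hm⟩ := hMi.nonempty
  obtain ⟨e⟩ := equiv_diff_singleton hMi hm
  have cont : ∀ {A B : Set S} (f : A → B), Injective f → Surjective f → B ⊆ M → B.Infinite →
      Continuous f := by
    intro A B f hf hs hB hBi
    rw [continuous_iff_isClosed]
    intro K hK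
    obtain ⟨K', hK', rfl⟩ := isClosed_induced_iff.1 hK
    by_cases h : (M : Set S) ⊆ K'
    · have : (f ⁻¹' (Subtype.val ⁻¹' K')) = univ := by
        refine eq_univ_of_forall fun a => ?_
        exact h (hB (f a).2)
      rw [this]
      exact isClosed_univ
    · have h1 : (f ⁻¹' (Subtype.val ⁻¹' K')).Finite := by
        have h2 := hmin' K' hK' h
        have h3 : (Subtype.val ⁻¹' ((M : Set S) ∩ K') : Set B).Finite :=
          Finite.preimage Subtype.val_injective.injOn h2
        have h4 : (Subtype.val ⁻¹' K' : Set B) ⊆ Subtype.val ⁻¹' ((M : Set S) ∩ K') :=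
          fun b hb => ⟨hB b.2, hb⟩
        exact Finite.preimage hf.injOn (h3.subset h4)
      exact h1.isClosed
  obtain ⟨h, hh⟩ := hS (M : Set S) ((M : Set S) \ {m}) ⟨{ toEquiv := e
                                                          continuous_toFun := cont e e.injective
                                                            e.surjective diff_subset
                                                            (hMi.diff (finite_singleton m))
                                                          continuous_invFun := cont e.symm
                                                            e.symm.injective e.symm.surjective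
                                                            subset_rfl hMi }⟩
  have hcl : IsClosed ((M : Set S) \ {m}) := hh ▸ h.isClosedMap _ M.isClosed
  have hne : ¬ (M : Set S) ⊆ (M : Set S) \ {m} := fun h => (h hm).2 rfl
  have := hmin' _ hcl hne
  rw [inter_eq_right.2 diff_subset] at this
  exact (hMi.diff (finite_singleton m)) this

/-- **Main theorem.** -/
theorem thin_main [Infinite S] (hS : Thin S) :
    (∀ x y : S, x ∈ closure ({y} : Set S) → y ∈ closure ({x} : Set S)) ∧
    (∀ x : S, (closure ({x} : Set S)).Finite) ∧
    (∀ U V : Set S, IsOpen U → IsOpen V → U.Nonempty → V.Nonempty → (U ∩ V).Nonempty) ∧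
    ¬ NoetherianSpace S := by
  have hT := thin_quot hS
  have hT1 := t1_of_thin hT
  have hinf := infinite_quot hS
  refine ⟨?_, ?_, ?_, ?_⟩
  · intro x y hxy
    exact (specializes_symm hS hxy).specializes.mem_closure
  · intro x
    refine (fibre_finite hS x).subset ?_
    intro y hy
    exact specializes_symm hS hy
  · intro U V hU hV hUn hVn
    obtain ⟨z, hz, hz'⟩ := hyper_T1 hT (SeparationQuotient.isOpenMap_mk U hU)
      (SeparationQuotient.isOpenMap_mk V hV) (hUn.image _) (hVn.image _)
    obtain ⟨u, hu, rfl⟩ := hz
    refine ⟨u, hu, ?_⟩
    rw [← SeparationQuotient.preimage_image_mk_open hV]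
    exact hz'
  · intro hN
    have h1 : NoetherianSpace (Set.range (SeparationQuotient.mk : S → SeparationQuotient S)) :=
      NoetherianSpace.range _ SeparationQuotient.continuous_mk
    rw [SeparationQuotient.range_mk, noetherian_univ_iff] at h1
    exact not_noetherian_T1 hT h1

end Pool.Agent.R728.TH
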