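import Mathlib

set_option autoImplicit false

open Set Topology Filter Function

namespace Pool.Agent.R728.TH

/-- A space is thin if homeomorphic subsets are mapped onto each other by homeomorphisms of the
space. -/
def Thin (S : Type*) [TopologicalSpace S] : Prop :=
  ∀ A B : Set S, Nonempty (A ≃ₜ B) → ∃ h : S ≃ₜ S, h '' A = B

variable {S : Type*} [TopologicalSpace S]

theorem Thin.homog (hS : Thin S) (x y : S) : ∃ h : S ≃ₜ S, h x = y := by
  obtain ⟨h, hh⟩ := hS {x} {y} ⟨Homeomorph.homeomorphOfUnique _ _⟩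
  refine ⟨h, ?_⟩
  have : h x ∈ h '' {x} := mem_image_of_mem _ rfl
  rw [hh] at this
  exact this

theorem Thin.no_proper (hS : Thin S) (A : Set S) (e : Nonempty (S ≃ₜ A)) : A = univ := by
  obtain ⟨e⟩ := e
  obtain ⟨h, hh⟩ := hS univ A ⟨(Homeomorph.Set.univ S).trans e⟩
  rw [← hh, image_univ, h.surjective.range_eq]

/-- The union of a family of pairwise disjoint, relatively open sets is the topological sum. -/
theorem sigmaHomeo {ι : Type*} (A : ι → Set S) (hd : Pairwise (Disjoint on A))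
    (hA : ∀ i, ∃ O, IsOpen O ∧ O ∩ (⋃ j, A j) = A i) :
    Nonempty ((Σ i, A i) ≃ₜ (⋃ i, A i : Set S)) := by
  classical
  have hcoe : ∀ x : (Σ i, A i), (((Set.unionEqSigmaOfDisjoint hd).symm x : (⋃ i, A i : Set S)) : S)
      = x.2 := fun x => Set.coe_unionEqSigmaOfDisjoint_symm_apply hd x
  refine ⟨(Set.unionEqSigmaOfDisjoint hd).symm.toHomeomorphOfContinuousOpen ?_ ?_⟩
  · refine continuous_sigma fun i => ?_
    refine continuous_induced_rng.2 ?_
    have : (Subtype.val ∘ fun a : A i => (Set.unionEqSigmaOfDisjoint hd).symm ⟨i, a⟩)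
        = Subtype.val := by
      funext a
      exact hcoe ⟨i, a⟩
    rw [this]
    exact continuous_subtype_val
  · refine isOpenMap_sigma.2 fun i => ?_
    intro O hO
    obtain ⟨W, hW, rfl⟩ := isOpen_induced_iff.1 hO
    obtain ⟨Oi, hOi, hOi'⟩ := hA i
    refine isOpen_induced_iff.2 ⟨W ∩ Oi, hW.inter hOi, ?_⟩
    ext x
    constructor
    · rintro ⟨h1, h2⟩
      have hx : (x : S) ∈ A i := by
        rw [← hOi']
        exact ⟨h2, x.2⟩
      refine ⟨⟨x, hx⟩, h1, ?_⟩
      apply Subtype.ext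
      exact hcoe ⟨i, ⟨x, hx⟩⟩
    · rintro ⟨a, ha, rfl⟩
      have h1 := hcoe ⟨i, a⟩
      have h2 : (a : S) ∈ Oi ∩ ⋃ j, A j := by rw [hOi']; exact a.2
      refine ⟨?_, ?_⟩
      · show _ ∈ W
        rw [h1]
        exact ha
      · show _ ∈ Oi
        rw [h1]
        exact h2.1

theorem glue {ι : Type*} (A B : ι → Set S) (hdA : Pairwise (Disjoint on A))
    (hdB : Pairwise (Disjoint on B))
    (hA : ∀ i, ∃ O, IsOpen O ∧ O ∩ (⋃ j, A j) = A i)
    (hB : ∀ i, ∃ O, IsOpen O ∧ O ∩ (⋃ j, B j) = B i)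
    (e : ∀ i, Nonempty (A i ≃ₜ B i)) :
    Nonempty ((⋃ i, A i : Set S) ≃ₜ (⋃ i, B i : Set S)) := by
  classical
  obtain ⟨a⟩ := sigmaHomeo A hdA hA
  obtain ⟨b⟩ := sigmaHomeo B hdB hB
  have f : (Σ i, A i) ≃ₜ (Σ i, B i) :=
    { toEquiv := Equiv.sigmaCongrRight (fun i => (e i).some.toEquiv)
      continuous_toFun := continuous_sigma fun i =>
        continuous_sigmaMk.comp (e i).some.continuous
      continuous_invFun := continuous_sigma fun i =>
        continuous_sigmaMk.comp (e i).some.symm.continuous }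
  exact ⟨a.symm.trans (f.trans b)⟩

theorem glue_open {ι : Type*} (A B : ι → Set S) (hdA : Pairwise (Disjoint on A))
    (hdB : Pairwise (Disjoint on B))
    (hA : ∀ i, IsOpen (A i)) (hB : ∀ i, IsOpen (B i))
    (e : ∀ i, Nonempty (A i ≃ₜ B i)) :
    Nonempty ((⋃ i, A i : Set S) ≃ₜ (⋃ i, B i : Set S)) := by
  refine glue A B hdA hdB (fun i => ⟨A i, hA i, ?_⟩) (fun i => ⟨B i, hB i, ?_⟩) e
  · exact inter_eq_left.2 (subset_iUnion A i)
  · exact inter_eq_left.2 (subset_iUnion B i)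

/-- Two separated sets. -/
def Sep (A B : Set S) : Prop :=
  ∃ O P : Set S, IsOpen O ∧ IsOpen P ∧ A ⊆ O ∧ B ⊆ P ∧ Disjoint A P ∧ Disjoint B O

theorem Sep.of_open {A B : Set S} (hA : IsOpen A) (hB : IsOpen B) (h : Disjoint A B) : Sep A B :=
  ⟨A, B, hA, hB, subset_rfl, subset_rfl, h, h.symm⟩

theorem Sep.of_closure {A B : Set S} (h1 : Disjoint A (closure B)) (h2 : Disjoint B (closure A)) :
    Sep A B := by
  refine ⟨(closure B)ᶜ, (closure A)ᶜ, isClosed_closure.isOpen_compl, isClosed_closure.isOpen_compl,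
    disjoint_left.1 h1, disjoint_left.1 h2, ?_, ?_⟩
  · exact disjoint_left.2 fun x hx hx' => hx' (subset_closure hx)
  · exact disjoint_left.2 fun x hx hx' => hx' (subset_closure hx)

theorem glue2 {A₁ A₂ B₁ B₂ : Set S} (hA : Sep A₁ A₂) (hB : Sep B₁ B₂)
    (e₁ : Nonempty (A₁ ≃ₜ B₁)) (e₂ : Nonempty (A₂ ≃ₜ B₂)) :
    Nonempty ((A₁ ∪ A₂ : Set S) ≃ₜ (B₁ ∪ B₂ : Set S)) := by
  have key : ∀ {A₁ A₂ : Set S}, Sep A₁ A₂ →
      (Pairwise (Disjoint on (fun b : Bool => bif b then A₁ else A₂))) ∧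
      (∀ b : Bool, ∃ O, IsOpen O ∧ O ∩ (⋃ j : Bool, bif j then A₁ else A₂)
        = bif b then A₁ else A₂) := by
    rintro A₁ A₂ ⟨O, P, hO, hP, h1, h2, h3, h4⟩
    have hd : Disjoint A₁ A₂ := h3.mono_right h2
    constructor
    · rintro (_ | _) (_ | _) h
      · exact absurd rfl h
      · exact hd.symm
      · exact hd
      · exact absurd rfl h
    · have hu : (⋃ j : Bool, bif j then A₁ else A₂) = A₁ ∪ A₂ := by
        exact Set.union_eq_iUnion.symm
      rw [hu]
      rintro (_ | _)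
      · refine ⟨P, hP, ?_⟩
        ext x
        constructor
        · rintro ⟨hx, hx' | hx'⟩
          · exact absurd hx (disjoint_left.1 h3 hx')
          · exact hx'
        · intro hx
          exact ⟨h2 hx, Or.inr hx⟩
      · refine ⟨O, hO, ?_⟩
        ext x
        constructor
        · rintro ⟨hx, hx' | hx'⟩
          · exact hx'
          · exact absurd hx (disjoint_left.1 h4 hx')
        · intro hx
          exact ⟨h1 hx, Or.inl hx⟩
  obtain ⟨a1, a2⟩ := key hA
  obtain ⟨b1, b2⟩ := key hB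
  have := glue (fun b : Bool => bif b then A₁ else A₂) (fun b : Bool => bif b then B₁ else B₂)
    a1 b1 a2 b2 (by rintro (_ | _) <;> assumption)
  have hu : ∀ A₁ A₂ : Set S, (⋃ j : Bool, bif j then A₁ else A₂) = A₁ ∪ A₂ := by
    intro A₁ A₂
    exact Set.union_eq_iUnion.symm
  rw [hu, hu] at this
  exact this

theorem nonempty_image_homeo (g : S ≃ₜ S) (A : Set S) : Nonempty (A ≃ₜ (g '' A : Set S)) :=
  ⟨g.image A⟩

end Pool.Agent.R728.TH
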