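import Pool.Agent.R728.TH.Clopen

set_option autoImplicit false

open Set Topology Filter Function

namespace Pool.Agent.R728.TH

variable {S : Type*} [TopologicalSpace S]

/-- If `z` is the only point of the clopen set `Q` outside the disjoint clopen sets `N k`,
then we get a contradiction. -/
theorem no_isolated (hS : Thin S) (hED : ∀ Q : Set S, IsOpen Q → IsOpen (closure Q))
    (hsing : ∀ x : S, ¬ IsOpen ({x} : Set S)) {N : ℕ → Set S} (hN : ∀ k, IsClopen (N k))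
    (hd : Pairwise (Disjoint on N)) {Q : Set S} (hQ : IsClopen Q) {t : S}
    (ht : Q ∩ (⋃ k, N k)ᶜ = {t}) : False := by
  classical
  have htQ : t ∈ Q ∧ t ∈ (⋃ k, N k)ᶜ := by
    have : t ∈ Q ∩ (⋃ k, N k)ᶜ := by rw [ht]; exact mem_singleton _
    exact this
  set J : Set ℕ := {k | (Q ∩ N k).Nonempty} with hJ
  by_cases hfin : J.Finite
  · have h1 : IsOpen (Q \ ⋃ k ∈ J, N k) := by
      refine hQ.isOpen.sdiff ?_
      exact hfin.isClosed_biUnion fun k _ => (hN k).isClosed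
    have h2 : Q \ ⋃ k ∈ J, N k = {t} := by
      rw [← ht]
      ext z
      constructor
      · rintro ⟨h1, h2⟩
        refine ⟨h1, fun h3 => h2 ?_⟩
        obtain ⟨k, hk⟩ := mem_iUnion.1 h3
        exact mem_biUnion (show k ∈ J from ⟨z, h1, hk⟩) hk
      · rintro ⟨h1, h2⟩
        refine ⟨h1, fun h3 => h2 ?_⟩
        obtain ⟨k, _, hk⟩ := mem_iUnion₂.1 h3
        exact mem_iUnion.2 ⟨k, hk⟩
    rw [h2] at h1
    exact hsing t h1
  · obtain ⟨φ, hφ, hφi⟩ := exists_two_seq hfin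
    set V : Bool → Set S := fun b => ⋃ n, (Q ∩ N (φ b n)) with hV
    have hVo : ∀ b, IsOpen (V b) := fun b =>
      isOpen_iUnion fun n => (hQ.inter (hN _)).isOpen
    have hVd : Disjoint (V true) (V false) := by
      refine disjoint_left.2 fun z hz hz' => ?_
      obtain ⟨m, _, hm⟩ := mem_iUnion.1 hz
      obtain ⟨n, _, hn⟩ := mem_iUnion.1 hz'
      have hne : φ true m ≠ φ false n := fun h => by simpa using (hφi _ _ _ _ h).1
      exact disjoint_left.1 (hd hne) hm hn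
    have hcld := ED_disj hED (hVo true) (hVo false) hVd
    have : ∃ b, t ∉ closure (V b) := by
      by_contra hcon
      push Not at hcon
      exact disjoint_left.1 hcld (hcon true) (hcon false)
    obtain ⟨b, hb⟩ := this
    refine FC hS (fun n => Q ∩ N (φ b n)) (fun n => hQ.inter (hN _)) (fun n => hφ b n) ?_ ?_
    · intro m n hmn
      have hne : φ b m ≠ φ b n := fun h => hmn (hφi _ _ _ _ h).2
      exact (hd hne).mono inter_subset_right inter_subset_right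
    · refine isClosed_of_closure_subset fun z hz => ?_
      have hzQ : z ∈ Q := by
        have : V b ⊆ Q := iUnion_subset fun n => inter_subset_left
        exact closure_minimal this hQ.isClosed hz
      by_cases hzN : z ∈ ⋃ k, N k
      · obtain ⟨k, hk⟩ := mem_iUnion.1 hzN
        obtain ⟨w, hw, hw'⟩ := mem_closure_iff.1 hz _ (hN k).isOpen hk
        obtain ⟨n, _, hn⟩ := mem_iUnion.1 hw'
        have : k = φ b n := by
          by_contra hne
          exact disjoint_left.1 (hd hne) hw hn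
        rw [this] at hk
        exact mem_iUnion.2 ⟨n, hzQ, hk⟩
      · have : z ∈ Q ∩ (⋃ k, N k)ᶜ := ⟨hzQ, hzN⟩
        rw [ht, mem_singleton_iff] at this
        exact absurd (this ▸ hz) hb

theorem image_eq_of_isolated (h : S ≃ₜ S) {D D' T T' : Set S} (hh : h '' (D ∪ T) = D' ∪ T')
    (hD : ∀ z ∈ D, ∃ Q : Set S, IsClopen Q ∧ Q ∩ (D ∪ T) = {z})
    (hD' : ∀ z ∈ D', ∃ Q : Set S, IsClopen Q ∧ Q ∩ (D' ∪ T') = {z})
    (hT : ∀ z ∈ T, ¬ ∃ Q : Set S, IsClopen Q ∧ Q ∩ (D ∪ T) = {z})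
    (hT' : ∀ z ∈ T', ¬ ∃ Q : Set S, IsClopen Q ∧ Q ∩ (D' ∪ T') = {z}) :
    h '' D = D' ∧ h '' T = T' := by
  have tr : ∀ z, (∃ Q : Set S, IsClopen Q ∧ Q ∩ (D ∪ T) = {z}) ↔
      (∃ Q : Set S, IsClopen Q ∧ Q ∩ (D' ∪ T') = {h z}) := by
    intro z
    constructor
    · rintro ⟨Q, hQ, hQz⟩
      refine ⟨h '' Q, ⟨h.isClosedMap _ hQ.1, h.isOpenMap _ hQ.2⟩, ?_⟩
      rw [← hh, ← image_inter h.injective, hQz, image_singleton]
    · rintro ⟨Q, hQ, hQz⟩
      refine ⟨h ⁻¹' Q, hQ.preimage h.continuous, ?_⟩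
      apply h.injective.image_injective
      rw [image_inter h.injective, image_preimage_eq _ h.surjective, hh, hQz, image_singleton]
  constructor
  · apply Subset.antisymm
    · rintro _ ⟨z, hz, rfl⟩
      have h1 : h z ∈ D' ∪ T' := by rw [← hh]; exact mem_image_of_mem _ (Or.inl hz)
      rcases h1 with h1 | h1
      · exact h1
      · exact absurd ((tr z).1 (hD z hz)) (hT' _ h1)
    · intro w hw
      have h1 : w ∈ h '' (D ∪ T) := by rw [hh]; exact Or.inl hw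
      obtain ⟨z, hz | hz, rfl⟩ := h1
      · exact mem_image_of_mem _ hz
      · exact absurd ((tr z).2 (hD' _ hw)) (hT z hz)
  · apply Subset.antisymm
    · rintro _ ⟨z, hz, rfl⟩
      have h1 : h z ∈ D' ∪ T' := by rw [← hh]; exact mem_image_of_mem _ (Or.inr hz)
      rcases h1 with h1 | h1
      · exact absurd ((tr z).2 (hD' _ h1)) (hT z hz)
      · exact h1
    · intro w hw
      have h1 : w ∈ h '' (D ∪ T) := by rw [hh]; exact Or.inr hw
      obtain ⟨z, hz | hz, rfl⟩ := h1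
      · exact absurd ((tr z).1 (hD z hz)) (hT' _ hw)
      · exact mem_image_of_mem _ hz

theorem caseB [Nonempty S] (hS : Thin S) (hED : ∀ Q : Set S, IsOpen Q → IsOpen (closure Q))
    (hsep : ∀ u v : S, u ≠ v → ∃ Q : Set S, IsClopen Q ∧ u ∈ Q ∧ v ∉ Q)
    (hsing : ∀ x : S, ¬ IsOpen ({x} : Set S))
    (hB : ∀ (x : ℕ → S) (U : ℕ → Set S), CI x U → cls (range x) ⊆ range x) : False := by
  classical
  obtain ⟨N, hNc, hNn, -, hNd⟩ := exists_seq hsep hsing (isClopen_univ (X := S)) univ_nonempty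
  choose z hz using hNn
  have hCz : CI z N := ⟨hNc, hz, hNd⟩
  obtain ⟨U, hUc, hUn, hUs, hUd⟩ := exists_seq hsep hsing (hNc 0) ⟨z 0, hz 0⟩
  choose y hy using hUn
  have hCy : CI y U := ⟨hUc, hy, hUd⟩
  set T : Set S := (⋃ k, N k)ᶜ with hT
  have hTc : IsClosed T := (isOpen_iUnion fun k => (hNc k).isOpen).isClosed_compl
  have hzN : range z ⊆ ⋃ k, N k := by
    rintro _ ⟨k, rfl⟩
    exact mem_iUnion.2 ⟨k, hz k⟩
  have hyN : range y ⊆ ⋃ k, N k := by
    rintro _ ⟨k, rfl⟩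
    exact mem_iUnion.2 ⟨0, hUs k (hy k)⟩
  have hcl : ∀ {x : ℕ → S} {U : ℕ → Set S}, CI x U → closure (range x) ⊆ range x := by
    intro x U h
    exact (closure_minimal (subset_cls _) (isClosed_cls _)).trans (hB x U h)
  have sepT : ∀ {x : ℕ → S} {U : ℕ → Set S}, CI x U → range x ⊆ ⋃ k, N k → Sep (range x) T := by
    intro x U h h'
    refine Sep.of_closure ?_ ?_
    · rw [hTc.closure_eq]
      exact disjoint_left.2 fun w hw hw' => hw' (h' hw)
    · exact disjoint_left.2 fun w hw hw' => hw (h' (hcl h hw'))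
  obtain ⟨h, hh⟩ := hS _ _ (glue2 (sepT hCz hzN) (sepT hCy hyN) (hCz.equiv hCy)
    ⟨Homeomorph.refl _⟩)
  have iso : ∀ {x : ℕ → S} {U : ℕ → Set S}, CI x U → (∀ k, U k ⊆ ⋃ k, N k) →
      ∀ w ∈ range x, ∃ Q : Set S, IsClopen Q ∧ Q ∩ (range x ∪ T) = {w} := by
    rintro x U h h' _ ⟨k, rfl⟩
    refine ⟨U k, h.clopen k, ?_⟩
    ext w
    constructor
    · rintro ⟨h1, ⟨j, rfl⟩ | h2⟩
      · rw [h.inj h1]; rfl
      · exact absurd (h' k h1) h2
    · rintro hw
      rw [mem_singleton_iff] at hw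
      subst hw
      exact ⟨h.mem k, Or.inl ⟨k, rfl⟩⟩
  have niso : ∀ (D : Set S), ∀ w ∈ T, ¬ ∃ Q : Set S, IsClopen Q ∧ Q ∩ (D ∪ T) = {w} := by
    rintro D w hw ⟨Q, hQ, hQw⟩
    have hwQ : w ∈ Q := by
      have : w ∈ Q ∩ (D ∪ T) := by rw [hQw]; rfl
      exact this.1
    refine no_isolated hS hED hsing hNc hNd hQ (t := w) ?_
    apply Subset.antisymm
    · rw [← hQw]
      exact inter_subset_inter_right _ subset_union_right
    · exact singleton_subset_iff.2 ⟨hwQ, hw⟩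
  obtain ⟨h1, h2⟩ := image_eq_of_isolated h hh
    (iso hCz fun k => subset_iUnion N k)
    (iso hCy fun k => (hUs k).trans (subset_iUnion N 0)) (niso _) (niso _)
  -- `h ⁻¹' N 0` is a clopen subset of `⋃ N` containing all `z k`
  have h3 : h ⁻¹' (N 0) ⊆ ⋃ k, N k := by
    intro w hw
    by_contra hwT
    have : h w ∈ T := by rw [← h2]; exact mem_image_of_mem _ hwT
    exact this (mem_iUnion.2 ⟨0, hw⟩)
  have h4 : ∀ k, h (z k) ∈ N 0 := by
    intro k
    have : h (z k) ∈ range y := by rw [← h1]; exact mem_image_of_mem _ ⟨k, rfl⟩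
    obtain ⟨j, hj⟩ := this
    rw [← hj]
    exact hUs j (hy j)
  refine FC hS (fun k => h ⁻¹' (N 0) ∩ N k) (fun k => ((hNc 0).preimage h.continuous).inter (hNc k))
    (fun k => ⟨z k, h4 k, hz k⟩) ?_ ?_
  · intro j k hjk
    exact (hNd hjk).mono inter_subset_right inter_subset_right
  · rw [← inter_iUnion, inter_eq_left.2 h3]
    exact ((hNc 0).preimage h.continuous).isClosed

theorem caseA [Nonempty S] (hS : Thin S) (hED : ∀ Q : Set S, IsOpen Q → IsOpen (closure Q))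
    (hsep : ∀ u v : S, u ≠ v → ∃ Q : Set S, IsClopen Q ∧ u ∈ Q ∧ v ∉ Q)
    (hsing : ∀ x : S, ¬ IsOpen ({x} : Set S))
    (hA : ∀ (x : ℕ → S) (U : ℕ → Set S), CI x U → ∃ p ∈ cls (range x), p ∉ range x) :
    False := by
  classical
  obtain ⟨U₀, hU₀c, hU₀n, -, hU₀d⟩ := exists_seq hsep hsing (isClopen_univ (X := S)) univ_nonempty
  choose x₀ hx₀ using hU₀n
  have hC₀ : CI x₀ U₀ := ⟨hU₀c, hx₀, hU₀d⟩
  obtain ⟨p, hp₀, hp₀'⟩ := hA _ _ hC₀
  have hne : ∃ q, p ≠ q := ⟨x₀ 0, fun h => hp₀' ⟨0, h.symm⟩⟩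
  obtain ⟨q, hpq⟩ := hne
  obtain ⟨Q, hQ, hpQ, hqQ⟩ := hsep _ _ hpq
  obtain ⟨g, hg⟩ := hS.homog p q
  set O : Set S := Q \ g ⁻¹' Q with hO
  have hOc : IsClopen O := hQ.diff (hQ.preimage g.continuous)
  have hpO : p ∈ O := ⟨hpQ, fun h => hqQ (by rw [← hg]; exact h)⟩
  have hOd : Disjoint O (g '' O) := by
    refine disjoint_left.2 ?_
    rintro z hz ⟨w, hw, rfl⟩
    exact hw.2 hz.1
  -- restrict the sequence to `O`
  set I : Set ℕ := {k | x₀ k ∈ O} with hI
  have hIinf : I.Infinite := by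
    intro hfin
    have h1 : IsClopen (Oᶜ ∪ ⋃ k ∈ I, U₀ k) :=
      hOc.compl.union (hfin.isClopen_biUnion fun k _ => hU₀c k)
    have h2 := hp₀ _ h1 ?_
    · rcases h2 with h2 | h2
      · exact h2 hpO
      · obtain ⟨k, _, hk⟩ := mem_iUnion₂.1 h2
        exact hC₀.not_mem hsep hp₀ hp₀' k hk
    · rintro _ ⟨k, rfl⟩
      by_cases hk : x₀ k ∈ O
      · exact Or.inr (mem_biUnion (show k ∈ I from hk) (hx₀ k))
      · exact Or.inl hk
  have hIinf' := hIinf.to_subtype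
  let φ : ℕ → ℕ := fun n => (Nat.Subtype.orderIsoOfNat I n : ℕ)
  have hφI : ∀ n, φ n ∈ I := fun n => (Nat.Subtype.orderIsoOfNat I n).2
  have hφs : ∀ k ∈ I, ∃ n, φ n = k := by
    intro k hk
    obtain ⟨n, hn⟩ := (Nat.Subtype.orderIsoOfNat I).surjective ⟨k, hk⟩
    exact ⟨n, congrArg Subtype.val hn⟩
  have hφi : ∀ m n, φ m = φ n → m = n := fun m n h =>
    (Nat.Subtype.orderIsoOfNat I).injective (Subtype.ext h)
  set x : ℕ → S := fun n => x₀ (φ n) with hx
  set U : ℕ → Set S := fun n => U₀ (φ n) ∩ O with hU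
  have hC : CI x U := ⟨fun n => (hU₀c _).inter hOc, fun n => ⟨hx₀ _, hφI n⟩, fun m n hmn =>
    (hU₀d (fun h => hmn (hφi m n h))).mono inter_subset_left inter_subset_left⟩
  have hUO : ∀ k, U k ⊆ O := fun k => inter_subset_right
  have hpx : p ∉ range x := by
    rintro ⟨n, hn⟩
    exact hp₀' ⟨φ n, hn⟩
  have hpc : p ∈ cls (range x) := by
    intro R hR hxR
    have := hp₀ (R ∪ Oᶜ) (hR.union hOc.compl) ?_
    · rcases this with h | h
      · exact h
      · exact absurd hpO h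
    · rintro _ ⟨k, rfl⟩
      by_cases hk : x₀ k ∈ O
      · obtain ⟨n, hn⟩ := hφs k hk
        exact Or.inl (hxR ⟨n, by simp only [hx, hn]⟩)
      · exact Or.inr hk
  clear_value x U
  set V : Set S := ⋃ k, U k with hV
  have hVo : IsOpen V := isOpen_iUnion fun k => (hC.clopen k).isOpen
  have hVO : V ⊆ O := iUnion_subset hUO
  have hVcl : closure V ⊆ O := closure_minimal hVO hOc.isClosed
  have hxV : range x ⊆ V := by
    rintro _ ⟨k, rfl⟩
    exact mem_iUnion.2 ⟨k, hC.mem k⟩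
  set N₂ : Set S := (closure V \ V) \ cls (range x) with hN₂
  have hN₂O : N₂ ⊆ O := fun z hz => hVcl hz.1.1
  -- the main claim
  have CL : ∀ R : Set S, IsClopen R → {k | (U k ∩ R).Nonempty}.Infinite →
      ∃ q₁ ∈ R ∩ N₂, ∃ q₂ ∈ R ∩ N₂, q₁ ≠ q₂ := by
    intro R hR hJ
    obtain ⟨ψ, hψ, hψi⟩ := exists_two_seq hJ
    have hy : ∀ k, (U k ∩ R).Nonempty → ∃ y ∈ U k ∩ R, y ≠ x k := by
      intro k hk
      by_contra hcon
      push Not at hcon
      obtain ⟨w, hw⟩ := hk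
      have hwx := hcon w hw
      have : U k ∩ R = {x k} := by
        refine eq_singleton_iff_unique_mem.2 ⟨hwx ▸ hw, hcon⟩
      apply hsing (x k)
      rw [← this]
      exact ((hC.clopen k).inter hR).isOpen
    have hY : ∀ k, (U k ∩ R).Nonempty → ∃ (y : S) (Y : Set S), IsClopen Y ∧ y ∈ Y ∧ Y ⊆ U k ∩ R ∧
        x k ∉ Y := by
      intro k hk
      obtain ⟨y, hy, hyx⟩ := hy k hk
      obtain ⟨Y, hYc, hyY, hxY⟩ := hsep _ _ hyx
      exact ⟨y, Y ∩ (U k ∩ R), hYc.inter ((hC.clopen k).inter hR), ⟨hyY, hy⟩, inter_subset_right,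
        fun h => hxY h.1⟩
    choose! y Y hYc hyY hYs hxY using hY
    have hψm : ∀ b n, (U (ψ b n) ∩ R).Nonempty := fun b n => hψ b n
    have hYU : ∀ b n, Y (ψ b n) ⊆ U (ψ b n) := fun b n => (hYs _ (hψm b n)).trans inter_subset_left
    have hCb : ∀ b, CI (fun n => y (ψ b n)) (fun n => Y (ψ b n)) := fun b =>
      ⟨fun n => hYc _ (hψm b n), fun n => hyY _ (hψm b n), fun m n hmn =>
        (hC.dis (fun h => hmn (hψi _ _ _ _ h).2)).mono (hYU b m) (hYU b n)⟩
    have hCb' : ∀ b, CI (fun n => y (ψ b n)) (fun n => U (ψ b n)) := fun b =>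
      ⟨fun n => hC.clopen _, fun n => hYU b n (hyY _ (hψm b n)), fun m n hmn =>
        hC.dis (fun h => hmn (hψi _ _ _ _ h).2)⟩
    choose q hq hq' using fun b => hA _ _ (hCb b)
    set G : Bool → Set S := fun b => ⋃ n, Y (ψ b n) with hG
    have hGo : ∀ b, IsOpen (G b) := fun b => isOpen_iUnion fun n => (hYc _ (hψm b n)).isOpen
    have hGcc : ∀ b, IsClopen (closure (G b)) := fun b => ⟨isClosed_closure, hED _ (hGo b)⟩
    have hqG : ∀ b, q b ∈ closure (G b) := by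
      intro b
      refine hq b _ (hGcc b) ?_
      rintro _ ⟨n, rfl⟩
      exact subset_closure (mem_iUnion.2 ⟨n, hyY _ (hψm b n)⟩)
    have hGV : ∀ b, G b ⊆ V := by
      intro b z hz
      obtain ⟨n, hn⟩ := mem_iUnion.1 hz
      exact mem_iUnion.2 ⟨_, hYU b n hn⟩
    have hqU : ∀ b k, q b ∉ U k := by
      intro b k hk
      by_cases hex : ∃ n, ψ b n = k
      · obtain ⟨n, hn⟩ := hex
        rw [← hn] at hk
        exact (hCb' b).not_mem hsep (hq b) (hq' b) n hk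
      · refine hq b _ (hC.clopen k).compl ?_ hk
        rintro _ ⟨n, rfl⟩ hn
        exact disjoint_left.1 (hC.dis (fun h => hex ⟨n, h⟩)) (hYU b n (hyY _ (hψm b n))) hn
    have hqR : ∀ b, q b ∈ R := by
      intro b
      refine hq b _ hR ?_
      rintro _ ⟨n, rfl⟩
      exact (hYs _ (hψm b n) (hyY _ (hψm b n))).2
    have hqc : ∀ b, q b ∉ cls (range x) := by
      intro b hqb
      refine hqb _ (hGcc b).compl ?_ (hqG b)
      rintro _ ⟨k, rfl⟩ hk
      by_cases hex : ∃ n, ψ b n = k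
      · obtain ⟨n, hn⟩ := hex
        subst hn
        obtain ⟨w, hw, hw'⟩ := mem_closure_iff.1 hk (U (ψ b n) \ Y (ψ b n))
          (((hC.clopen _).diff (hYc _ (hψm b n))).isOpen) ⟨hC.mem _, hxY _ (hψm b n)⟩
        obtain ⟨m, hm⟩ := mem_iUnion.1 hw'
        by_cases hmn : m = n
        · subst hmn
          exact hw.2 hm
        · exact disjoint_left.1 (hC.dis (fun h => hmn (hψi _ _ _ _ h).2)) (hYU b m hm) hw.1
      · obtain ⟨w, hw, hw'⟩ := mem_closure_iff.1 hk (U k) (hC.clopen k).isOpen (hC.mem k)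
        obtain ⟨m, hm⟩ := mem_iUnion.1 hw'
        exact disjoint_left.1 (hC.dis (fun h => hex ⟨m, h⟩)) (hYU b m hm) hw
    have hqN : ∀ b, q b ∈ R ∩ N₂ := fun b => ⟨hqR b, ⟨closure_mono (hGV b) (hqG b), fun h => by
      obtain ⟨k, hk⟩ := mem_iUnion.1 h
      exact hqU b k hk⟩, hqc b⟩
    have hGd : Disjoint (G true) (G false) := by
      refine disjoint_left.2 fun z hz hz' => ?_
      obtain ⟨m, hm⟩ := mem_iUnion.1 hz
      obtain ⟨n, hn⟩ := mem_iUnion.1 hz'
      have hne : ψ true m ≠ ψ false n := fun h => by simpa using (hψi _ _ _ _ h).1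
      exact disjoint_left.1 (hC.dis hne) (hYU true m hm) (hYU false n hn)
    refine ⟨q true, hqN true, q false, hqN false, fun h => ?_⟩
    exact disjoint_left.1 (ED_disj hED (hGo true) (hGo false) hGd) (hqG true) (h ▸ hqG false)
  have CL2 : ∀ R : Set S, IsClopen R → ∀ w ∈ R ∩ N₂, {k | (U k ∩ R).Nonempty}.Infinite := by
    rintro R hR w ⟨hwR, ⟨hwV, hwV'⟩, _⟩ hfin
    have h1 : IsClosed (⋃ k ∈ {k | (U k ∩ R).Nonempty}, (U k ∩ R)) :=
      hfin.isClosed_biUnion fun k _ => ((hC.clopen k).inter hR).isClosed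
    have h2 : V ∩ R ⊆ ⋃ k ∈ {k | (U k ∩ R).Nonempty}, (U k ∩ R) := by
      rintro z ⟨hz, hzR⟩
      obtain ⟨k, hk⟩ := mem_iUnion.1 hz
      exact mem_biUnion (show k ∈ {k | (U k ∩ R).Nonempty} from ⟨z, hk, hzR⟩) ⟨hk, hzR⟩
    have h3 : w ∈ closure (V ∩ R) := by
      rw [mem_closure_iff]
      intro W hW hwW
      obtain ⟨z, hz, hz'⟩ := mem_closure_iff.1 hwV (W ∩ R) (hW.inter hR.isOpen) ⟨hwW, hwR⟩
      exact ⟨z, hz.1, hz', hz.2⟩
    have h4 := closure_minimal h2 h1 h3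
    obtain ⟨k, _, hk⟩ := mem_iUnion₂.1 h4
    exact hwV' (mem_iUnion.2 ⟨k, hk.1⟩)
  have sep1 : Sep (range x) N₂ := by
    refine ⟨V, (cls (range x))ᶜ, hVo, (isClosed_cls _).isOpen_compl, hxV, fun z hz => hz.2, ?_, ?_⟩
    · exact disjoint_left.2 fun z hz hz' => hz' (subset_cls _ hz)
    · exact disjoint_left.2 fun z hz hz' => hz.1.2 hz'
  have sep2 : Sep (range x) (g '' N₂) := by
    refine ⟨O, g '' O, hOc.isOpen, g.isOpenMap _ hOc.isOpen, hxV.trans hVO, image_mono hN₂O, ?_, ?_⟩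
    · exact hOd.mono_left (hxV.trans hVO)
    · exact (hOd.mono_right (image_mono hN₂O)).symm
  obtain ⟨h, hh⟩ := hS _ _ (glue2 sep1 sep2 ⟨Homeomorph.refl _⟩ (nonempty_image_homeo g N₂))
  obtain ⟨h1, h2⟩ := image_eq_of_isolated h hh
    (by
      rintro _ ⟨k, rfl⟩
      refine ⟨U k, hC.clopen k, ?_⟩
      ext w
      constructor
      · rintro ⟨h1, ⟨j, rfl⟩ | h2⟩
        · rw [hC.inj h1]; rfl
        · exact absurd (mem_iUnion.2 ⟨k, h1⟩) h2.1.2
      · rintro hw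
        rw [mem_singleton_iff] at hw
        subst hw
        exact ⟨hC.mem k, Or.inl ⟨k, rfl⟩⟩)
    (by
      rintro _ ⟨k, rfl⟩
      refine ⟨U k, hC.clopen k, ?_⟩
      ext w
      constructor
      · rintro ⟨h1, ⟨j, rfl⟩ | h2⟩
        · rw [hC.inj h1]; rfl
        · exact absurd (image_mono hN₂O h2) (disjoint_left.1 hOd (hUO k h1))
      · rintro hw
        rw [mem_singleton_iff] at hw
        subst hw
        exact ⟨hC.mem k, Or.inl ⟨k, rfl⟩⟩)
    (by
      rintro w hw ⟨R, hR, hRw⟩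
      have hwR : w ∈ R := by
        have : w ∈ R ∩ (range x ∪ N₂) := by rw [hRw]; rfl
        exact this.1
      obtain ⟨q₁, hq₁, q₂, hq₂, hne⟩ := CL R hR (CL2 R hR w ⟨hwR, hw⟩)
      have e₁ : q₁ ∈ ({w} : Set S) := by rw [← hRw]; exact ⟨hq₁.1, Or.inr hq₁.2⟩
      have e₂ : q₂ ∈ ({w} : Set S) := by rw [← hRw]; exact ⟨hq₂.1, Or.inr hq₂.2⟩
      exact hne (e₁.trans e₂.symm))
    (by
      rintro _ ⟨w, hw, rfl⟩ ⟨R, hR, hRw⟩
      have hwR : g w ∈ R := by
        have : g w ∈ R ∩ (range x ∪ g '' N₂) := by rw [hRw]; rfl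
        exact this.1
      obtain ⟨q₁, hq₁, q₂, hq₂, hne⟩ := CL (g ⁻¹' R) (hR.preimage g.continuous)
        (CL2 _ (hR.preimage g.continuous) w ⟨hwR, hw⟩)
      have e₁ : g q₁ ∈ ({g w} : Set S) := by
        rw [← hRw]; exact ⟨hq₁.1, Or.inr (mem_image_of_mem _ hq₁.2)⟩
      have e₂ : g q₂ ∈ ({g w} : Set S) := by
        rw [← hRw]; exact ⟨hq₂.1, Or.inr (mem_image_of_mem _ hq₂.2)⟩
      exact hne (g.injective (e₁.trans e₂.symm)))
  -- `p` is in the closure of both pieces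
  have hpN : p ∈ cls N₂ := by
    intro R hR hN
    by_contra hpR
    have hfin : ¬ {k | (U k ∩ Rᶜ).Nonempty}.Infinite := by
      intro hinf
      obtain ⟨q₁, hq₁, _⟩ := CL Rᶜ hR.compl hinf
      exact hq₁.1 (hN hq₁.2)
    rw [not_infinite] at hfin
    have h3 : IsClopen (R ∪ ⋃ k ∈ {k | (U k ∩ Rᶜ).Nonempty}, U k) :=
      hR.union (hfin.isClopen_biUnion fun k _ => hC.clopen k)
    have h4 := hpc _ h3 ?_
    · rcases h4 with h4 | h4
      · exact hpR h4
      · obtain ⟨k, _, hk⟩ := mem_iUnion₂.1 h4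
        exact hC.not_mem hsep hpc hpx k hk
    · rintro _ ⟨k, rfl⟩
      by_cases hk : x k ∈ R
      · exact Or.inl hk
      · exact Or.inr (mem_biUnion (show k ∈ {k | (U k ∩ Rᶜ).Nonempty} from ⟨x k, hC.mem k, hk⟩)
          (hC.mem k))
  have e1 : h p ∈ O := by
    have := mem_cls_image h hpc
    rw [h1] at this
    exact this O hOc (hxV.trans hVO)
  have e2 : h p ∈ g '' O := by
    have := mem_cls_image h hpN
    rw [h2] at this
    exact this (g '' O) ⟨g.isClosedMap _ hOc.1, g.isOpenMap _ hOc.2⟩ (image_mono hN₂O)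
  exact disjoint_left.1 hOd e1 e2

/-- Every regular open subset of an infinite thin `T₁` space is connected. -/
theorem regOpen_main [T1Space S] [Infinite S] (hS : Thin S) {A B : Set S} (hA : IsOpen A)
    (hB : IsOpen B) (hd : Disjoint A B) (hAn : A.Nonempty) (hBn : B.Nonempty) :
    ¬ interior (closure (A ∪ B)) ⊆ A ∪ B := by
  intro hr
  have hED := split_ED hS hA hB hd hAn hBn hr
  have hsep : ∀ u v : S, u ≠ v → ∃ Q : Set S, IsClopen Q ∧ u ∈ Q ∧ v ∉ Q := fun u v huv =>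
    tot_sep hS hED hA hB hd hAn hBn huv
  have hsing := not_isOpen_singleton hS
  rcases CI.dichotomy hS with h | h
  · exact caseA hS hED hsep hsing h
  · exact caseB hS hED hsep hsing h

end Pool.Agent.R728.TH
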