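import Pool.Agent.R728.TH.TOne

set_option autoImplicit false

open Set Topology Filter Function

namespace Pool.Agent.R728.TH

variable {S : Type*} [TopologicalSpace S]

/-- An infinite sequence of pairwise disjoint nonempty clopen sets never has a closed union. -/
theorem FC (hS : Thin S) (Q : ℕ → Set S) (hQ : ∀ k, IsClopen (Q k)) (hne : ∀ k, (Q k).Nonempty)
    (hd : Pairwise (Disjoint on Q)) : ¬ IsClosed (⋃ k, Q k) := by
  classical
  intro hcl
  choose x hx using hne
  choose g hg using fun k => hS.homog (x 0) (x k)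
  set W : ℕ → Set S := fun k => ⋂ j ∈ Finset.range (k + 1), (g j) ⁻¹' (Q j) with hW
  have memW : ∀ k z, z ∈ W k ↔ ∀ j, j ≤ k → g j z ∈ Q j := by
    intro k z
    simp only [hW, mem_iInter, Finset.mem_range, mem_preimage, Nat.lt_succ_iff]
  have hWc : ∀ k, IsClopen (W k) := fun k =>
    isClopen_biInter_finset fun j _ => (hQ j).preimage (g j).continuous
  have hWanti : ∀ j k, j ≤ k → W k ⊆ W j := by
    intro j k hjk z hz
    rw [memW] at hz ⊢
    exact fun i hi => hz i (hi.trans hjk)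
  have hx0 : ∀ k, x 0 ∈ W k := by
    intro k
    rw [memW]
    intro j _
    rw [hg j]
    exact hx j
  have hgW : ∀ k, g k '' W k ⊆ Q k := by
    rintro k _ ⟨z, hz, rfl⟩
    exact (memW k z).1 hz k le_rfl
  have him : ∀ (j k : ℕ) (X : Set S), X ⊆ W k → k ≥ j → g j '' X ⊆ g j '' W j := fun j k X hX hk =>
    image_mono (hX.trans (hWanti j k hk))
  set Y : Set S := ⋃ k, g k '' W k with hY
  have hYsub : ∀ k, g k '' W k ⊆ Y := fun k => subset_iUnion (fun k => g k '' W k) k
  have hYc : IsOpen Yᶜ := by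
    have : Yᶜ = (⋃ k, Q k)ᶜ ∪ ⋃ k, (Q k \ g k '' W k) := by
      ext z
      constructor
      · intro hz
        by_cases hzQ : z ∈ ⋃ k, Q k
        · obtain ⟨k, hk⟩ := mem_iUnion.1 hzQ
          exact Or.inr (mem_iUnion.2 ⟨k, hk, fun h => hz (hYsub k h)⟩)
        · exact Or.inl hzQ
      · rintro (hz | hz) hzY
        · obtain ⟨k, hk⟩ := mem_iUnion.1 hzY
          exact hz (mem_iUnion.2 ⟨k, hgW k hk⟩)
        · obtain ⟨k, hk⟩ := mem_iUnion.1 hz
          obtain ⟨j, hj⟩ := mem_iUnion.1 hzY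
          by_cases hjk : j = k
          · subst hjk; exact hk.2 hj
          · exact disjoint_left.1 (hd hjk) (hgW j hj) hk.1
    rw [this]
    refine hcl.isOpen_compl.union (isOpen_iUnion fun k => ?_)
    exact (hQ k).isOpen.sdiff ((g k).isClosedMap _ (hWc k).isClosed)
  -- the pieces
  let A : Option (ℕ ⊕ ℕ) → Set S := fun o => match o with
    | none => Yᶜ
    | some (Sum.inl k) => g k '' W (k + 1)
    | some (Sum.inr k) => g k '' (W k \ W (k + 1))
  let B : Option (ℕ ⊕ ℕ) → Set S := fun o => match o with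
    | none => Yᶜ
    | some (Sum.inl k) => g (k + 1) '' W (k + 1)
    | some (Sum.inr k) => g 0 '' (W k \ W (k + 1))
  have hAo : ∀ o, IsOpen (A o) := by
    rintro (_ | k | k)
    · exact hYc
    · exact (g k).isOpenMap _ (hWc _).isOpen
    · exact (g k).isOpenMap _ ((hWc _).diff (hWc _)).isOpen
  have hBo : ∀ o, IsOpen (B o) := by
    rintro (_ | k | k)
    · exact hYc
    · exact (g (k + 1)).isOpenMap _ (hWc _).isOpen
    · exact (g 0).isOpenMap _ ((hWc _).diff (hWc _)).isOpen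
  have hAl : ∀ k, A (some (Sum.inl k)) ⊆ g k '' W k := fun k =>
    image_mono (hWanti k (k + 1) (Nat.le_succ k))
  have hAr : ∀ k, A (some (Sum.inr k)) ⊆ g k '' W k := fun k => image_mono diff_subset
  have hBr : ∀ k, B (some (Sum.inr k)) ⊆ g 0 '' W 0 := fun k =>
    image_mono (diff_subset.trans (hWanti 0 k (Nat.zero_le k)))
  have hQd : ∀ {j k : ℕ} {X Z : Set S}, j ≠ k → X ⊆ g j '' W j → Z ⊆ g k '' W k → Disjoint X Z :=
    fun hjk hX hZ => (hd hjk).mono (hX.trans (hgW _)) (hZ.trans (hgW _))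
  have hYd : ∀ {k : ℕ} {X : Set S}, X ⊆ g k '' W k → Disjoint Yᶜ X := fun hX =>
    disjoint_compl_left.mono_right (hX.trans (hYsub _))
  have hWd : ∀ j k, j < k → Disjoint (W j \ W (j + 1)) (W k \ W (k + 1)) := fun j k hjk =>
    disjoint_left.2 fun z hz hz' => hz.2 (hWanti (j + 1) k hjk hz'.1)
  have hdA : Pairwise (Disjoint on A) := by
    rintro (_ | j | j) (_ | k | k) hjk
    · exact absurd rfl hjk
    · exact hYd (hAl k)
    · exact hYd (hAr k)
    · exact (hYd (hAl j)).symm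
    · exact hQd (fun h => hjk (by rw [h])) (hAl j) (hAl k)
    · by_cases h : j = k
      · subst h
        exact (disjoint_image_iff (g j).injective).2 disjoint_sdiff_right
      · exact hQd h (hAl j) (hAr k)
    · exact (hYd (hAr j)).symm
    · by_cases h : j = k
      · subst h
        exact (disjoint_image_iff (g j).injective).2 disjoint_sdiff_left
      · exact hQd h (hAr j) (hAl k)
    · exact hQd (fun h => hjk (by rw [h])) (hAr j) (hAr k)
  have hdB : Pairwise (Disjoint on B) := by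
    rintro (_ | j | j) (_ | k | k) hjk
    · exact absurd rfl hjk
    · exact hYd (k := k + 1) subset_rfl
    · exact hYd (hBr k)
    · exact (hYd (k := j + 1) subset_rfl).symm
    · exact hQd (j := j + 1) (k := k + 1) (fun h => hjk (by rw [Nat.succ_injective h])) subset_rfl
        subset_rfl
    · exact hQd (j := j + 1) (k := 0) (Nat.succ_ne_zero j) subset_rfl (hBr k)
    · exact (hYd (hBr j)).symm
    · exact hQd (j := 0) (k := k + 1) (Nat.succ_ne_zero k).symm (hBr j) subset_rfl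
    · have hne : j ≠ k := fun h => hjk (by rw [h])
      rcases lt_or_gt_of_ne hne with h | h
      · exact (disjoint_image_iff (g 0).injective).2 (hWd j k h)
      · exact (disjoint_image_iff (g 0).injective).2 (hWd k j h).symm
  have hAU : (⋃ o, A o) = univ := by
    refine eq_univ_of_forall fun z => ?_
    by_cases hz : z ∈ Y
    · obtain ⟨k, w, hw, rfl⟩ := mem_iUnion.1 hz
      by_cases hw' : w ∈ W (k + 1)
      · exact mem_iUnion.2 ⟨some (Sum.inl k), mem_image_of_mem _ hw'⟩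
      · exact mem_iUnion.2 ⟨some (Sum.inr k), mem_image_of_mem _ ⟨hw, hw'⟩⟩
    · exact mem_iUnion.2 ⟨none, hz⟩
  obtain ⟨h, hh⟩ := hS (⋃ o, A o) (⋃ o, B o) <| by
    refine glue_open A B hdA hdB hAo hBo ?_
    rintro (_ | k | k)
    · exact ⟨Homeomorph.refl _⟩
    · obtain ⟨a⟩ := nonempty_image_homeo (g k) (W (k + 1))
      obtain ⟨b⟩ := nonempty_image_homeo (g (k + 1)) (W (k + 1))
      exact ⟨a.symm.trans b⟩
    · obtain ⟨a⟩ := nonempty_image_homeo (g k) (W k \ W (k + 1))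
      obtain ⟨b⟩ := nonempty_image_homeo (g 0) (W k \ W (k + 1))
      exact ⟨a.symm.trans b⟩
  rw [hAU, image_univ, h.surjective.range_eq] at hh
  have hx00 : x 0 ∈ ⋃ o, B o := by rw [← hh]; exact mem_univ _
  have hgx : g 0 (x 0) = x 0 := hg 0
  obtain ⟨o, ho⟩ := mem_iUnion.1 hx00
  rcases o with _ | k | k
  · exact ho (hYsub 0 ⟨x 0, hx0 0, hgx⟩)
  · exact disjoint_left.1 (hd (Nat.succ_ne_zero k)) (hgW (k + 1) ho) (hx 0)
  · obtain ⟨z, hz, hz'⟩ := ho
    rw [← hgx] at hz'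
    have := (g 0).injective hz'
    rw [this] at hz
    exact hz.2 (hx0 (k + 1))

/-- Infinitely many disjoint clopen sets inside a nonempty clopen set. -/
theorem exists_seq (hsep : ∀ u v : S, u ≠ v → ∃ Q : Set S, IsClopen Q ∧ u ∈ Q ∧ v ∉ Q)
    (hsing : ∀ x : S, ¬ IsOpen ({x} : Set S)) {M : Set S} (hM : IsClopen M) (hMn : M.Nonempty) :
    ∃ U : ℕ → Set S, (∀ k, IsClopen (U k)) ∧ (∀ k, (U k).Nonempty) ∧ (∀ k, U k ⊆ M) ∧
      Pairwise (Disjoint on U) := by
  classical
  have split : ∀ R : {R : Set S // IsClopen R ∧ R.Nonempty ∧ R ⊆ M},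
      ∃ U : Set S, IsClopen U ∧ U.Nonempty ∧ U ⊆ R.1 ∧ (R.1 \ U).Nonempty := by
    rintro ⟨R, hR, ⟨x, hx⟩, hRM⟩
    have : ∃ y ∈ R, y ≠ x := by
      by_contra hcon
      push Not at hcon
      apply hsing x
      have : R = {x} := eq_singleton_iff_unique_mem.2 ⟨hx, hcon⟩
      rw [← this]
      exact hR.isOpen
    obtain ⟨y, hy, hyx⟩ := this
    obtain ⟨Q, hQ, hyQ, hxQ⟩ := hsep y x hyx
    exact ⟨R ∩ Q, hR.inter hQ, ⟨y, hy, hyQ⟩, inter_subset_left, ⟨x, hx, fun h => hxQ h.2⟩⟩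
  choose f hf1 hf2 hf3 hf4 using split
  let nxt : {R : Set S // IsClopen R ∧ R.Nonempty ∧ R ⊆ M} →
      {R : Set S // IsClopen R ∧ R.Nonempty ∧ R ⊆ M} := fun R =>
    ⟨R.1 \ f R, R.2.1.diff (hf1 R), hf4 R, diff_subset.trans R.2.2.2⟩
  let R : ℕ → {R : Set S // IsClopen R ∧ R.Nonempty ∧ R ⊆ M} := fun n =>
    Nat.rec ⟨M, hM, hMn, subset_rfl⟩ (fun _ r => nxt r) n
  have hRs : ∀ n, (R (n + 1)).1 = (R n).1 \ f (R n) := fun n => rfl
  have hRa : ∀ m n, m ≤ n → (R n).1 ⊆ (R m).1 := by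
    intro m n hmn
    induction n, hmn using Nat.le_induction with
    | base => exact subset_rfl
    | succ n _ ih =>
      rw [hRs]
      exact diff_subset.trans ih
  have hdis : ∀ m n, m < n → Disjoint (f (R m)) (f (R n)) := by
    intro m n hmn
    refine disjoint_left.2 fun z hz hz' => ?_
    have h1 : z ∈ (R (m + 1)).1 := hRa (m + 1) n hmn (hf3 _ hz')
    rw [hRs] at h1
    exact h1.2 hz
  refine ⟨fun n => f (R n), fun n => hf1 _, fun n => hf2 _, fun n => (hf3 _).trans (R n).2.2.2, ?_⟩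
  intro m n hmn
  rcases lt_or_gt_of_ne hmn with h | h
  · exact hdis m n h
  · exact (hdis n m h).symm

/-- `x` is a sequence with pairwise disjoint clopen neighbourhoods `U`. -/
structure CI (x : ℕ → S) (U : ℕ → Set S) : Prop where
  clopen : ∀ k, IsClopen (U k)
  mem : ∀ k, x k ∈ U k
  dis : Pairwise (Disjoint on U)

/-- The intersection of the clopen sets containing `D`. -/
def cls (D : Set S) : Set S := {p | ∀ Q : Set S, IsClopen Q → D ⊆ Q → p ∈ Q}

theorem mem_cls_image (h : S ≃ₜ S) {D : Set S} {p : S} (hp : p ∈ cls D) : h p ∈ cls (h '' D) := by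
  intro Q hQ hD
  exact hp (h ⁻¹' Q) (hQ.preimage h.continuous) (image_subset_iff.1 hD)

theorem subset_cls (D : Set S) : D ⊆ cls D := fun _ hz _ _ hD => hD hz

theorem isClosed_cls (D : Set S) : IsClosed (cls D) := by
  have : cls D = ⋂₀ {Q | IsClopen Q ∧ D ⊆ Q} := by
    ext z
    simp only [cls, mem_setOf_eq, mem_sInter]
    exact ⟨fun h Q hQ => h Q hQ.1 hQ.2, fun h Q h1 h2 => h Q ⟨h1, h2⟩⟩
  rw [this]
  exact isClosed_sInter fun Q hQ => hQ.1.isClosed

theorem cls_mono {D E : Set S} (h : D ⊆ E) : cls D ⊆ cls E := fun _ hz Q hQ hE =>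
  hz Q hQ (h.trans hE)

theorem CI.inj {x : ℕ → S} {U : ℕ → Set S} (h : CI x U) {j k : ℕ} (hjk : x j ∈ U k) : j = k := by
  by_contra hne
  exact disjoint_left.1 (h.dis hne) (h.mem j) hjk

theorem CI.equiv {x y : ℕ → S} {U V : ℕ → Set S} (hx : CI x U) (hy : CI y V) :
    Nonempty ((range x : Set S) ≃ₜ (range y : Set S)) := by
  have key : ∀ {x : ℕ → S} {U : ℕ → Set S}, CI x U →
      Pairwise (Disjoint on (fun k => ({x k} : Set S))) ∧
      (∀ k, ∃ O, IsOpen O ∧ O ∩ (⋃ j, ({x j} : Set S)) = {x k}) := by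
    intro x U h
    constructor
    · intro j k hjk
      refine disjoint_left.2 ?_
      rintro z hz hz'
      rw [mem_singleton_iff] at hz hz'
      exact hjk (h.inj (by rw [← hz, hz']; exact h.mem k))
    · intro k
      refine ⟨U k, (h.clopen k).isOpen, ?_⟩
      ext z
      constructor
      · rintro ⟨h1, h2⟩
        obtain ⟨j, hj⟩ := mem_iUnion.1 h2
        rw [mem_singleton_iff] at hj
        rw [hj] at h1
        rw [mem_singleton_iff, hj, h.inj h1]
      · rintro hz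
        rw [mem_singleton_iff] at hz
        subst hz
        exact ⟨h.mem k, mem_iUnion.2 ⟨k, rfl⟩⟩
  have := glue (fun k => ({x k} : Set S)) (fun k => ({y k} : Set S)) (key hx).1 (key hy).1
    (key hx).2 (key hy).2 (fun k => ⟨Homeomorph.homeomorphOfUnique _ _⟩)
  rwa [iUnion_singleton_eq_range, iUnion_singleton_eq_range] at this

theorem CI.not_mem {x : ℕ → S} {U : ℕ → Set S} (h : CI x U)
    (hsep : ∀ u v : S, u ≠ v → ∃ Q : Set S, IsClopen Q ∧ u ∈ Q ∧ v ∉ Q) {p : S}
    (hp : p ∈ cls (range x)) (hp' : p ∉ range x) (k : ℕ) : p ∉ U k := by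
  intro hpk
  have hne : x k ≠ p := fun e => hp' ⟨k, e⟩
  obtain ⟨Q, hQ, hxQ, hpQ⟩ := hsep _ _ hne
  have := hp ((U k)ᶜ ∪ Q) ((h.clopen k).compl.union hQ) ?_
  · rcases this with h1 | h1
    · exact h1 hpk
    · exact hpQ h1
  · rintro _ ⟨j, rfl⟩
    by_cases hjk : j = k
    · subst hjk; exact Or.inr hxQ
    · exact Or.inl fun h' => hjk (h.inj h')

theorem CI.dichotomy (hS : Thin S) :
    (∀ (x : ℕ → S) (U : ℕ → Set S), CI x U → ∃ p ∈ cls (range x), p ∉ range x) ∨
    (∀ (x : ℕ → S) (U : ℕ → Set S), CI x U → cls (range x) ⊆ range x) := by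
  by_contra hcon
  push Not at hcon
  obtain ⟨⟨x, U, hx, hx'⟩, y, V, hy, hy'⟩ := hcon
  obtain ⟨p, hp, hp'⟩ := not_subset.1 hy'
  obtain ⟨h, hh⟩ := hS _ _ (hy.equiv hx)
  have h1 := mem_cls_image h hp
  rw [hh] at h1
  have h2 := hx' _ h1
  rw [← hh] at h2
  exact hp' (h.injective.mem_set_image.1 h2)

/-- Splitting an infinite set of indices into two infinite sequences. -/
theorem exists_two_seq {J : Set ℕ} (hJ : J.Infinite) :
    ∃ φ : Bool → ℕ → ℕ, (∀ b n, φ b n ∈ J) ∧ (∀ b c m n, φ b m = φ c n → b = c ∧ m = n) := by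
  let ψ := hJ.natEmbedding
  refine ⟨fun b n => (ψ (2 * n + cond b 1 0) : ℕ), fun b n => (ψ _).2, ?_⟩
  intro b c m n h
  have h1 := ψ.injective (Subtype.ext h)
  cases b <;> cases c <;> simp at h1 ⊢ <;> omega

end Pool.Agent.R728.TH
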