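import Pool.Agent.R728.TH.Quot

set_option autoImplicit false

open Set Topology Filter Function

namespace Pool.Agent.R728.TH

variable {S : Type*} [TopologicalSpace S]

theorem continuous_into_fibre {A B : Set S} {x : S} (hB : ∀ b ∈ B, Inseparable b x) (f : A → B) :
    Continuous f := by
  refine continuous_induced_rng.2 ?_
  rw [SeparationQuotient.isInducing_mk.continuous_iff]
  have : (SeparationQuotient.mk ∘ (Subtype.val ∘ f)) = fun _ => SeparationQuotient.mk x := by
    funext a
    exact SeparationQuotient.mk_eq_mk.2 (hB _ (f a).2)
  rw [this]
  exact continuous_const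

theorem equiv_diff_singleton {α : Type*} {F : Set α} (hF : F.Infinite) {x : α} (hx : x ∈ F) :
    Nonempty (F ≃ (F \ {x} : Set α)) := by
  have h1 : Cardinal.mk (F \ {x} : Set α) + Cardinal.mk ({x} : Set α) = Cardinal.mk F :=
    Cardinal.mk_diff_add_mk (singleton_subset_iff.2 hx)
  rw [Cardinal.mk_singleton] at h1
  have h2 : (F \ {x}).Infinite := hF.diff (finite_singleton x)
  have h3 : Cardinal.aleph0 ≤ Cardinal.mk (F \ {x} : Set α) := by
    have := h2.to_subtype
    exact Cardinal.aleph0_le_mk _
  rw [Cardinal.add_one_eq h3] at h1
  exact Cardinal.eq.1 h1.symm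

theorem fibre_finite (hS : Thin S) (x : S) : {y : S | Inseparable y x}.Finite := by
  by_contra hinf
  set F : Set S := {y : S | Inseparable y x} with hF
  have hxF : x ∈ F := Inseparable.refl x
  obtain ⟨e⟩ := equiv_diff_singleton hinf hxF
  obtain ⟨h, hh⟩ := hS F (F \ {x}) ⟨{ toEquiv := e
                                      continuous_toFun := continuous_into_fibre (x := x)
                                        (fun b hb => hb.1) e
                                      continuous_invFun := continuous_into_fibre (x := x)
                                        (fun b hb => hb) e.symm }⟩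
  have h1 : h x ∈ F \ {x} := by rw [← hh]; exact mem_image_of_mem _ hxF
  have h2 : Inseparable (h x) x := h1.1
  have h3 : h.symm x ∈ F := by
    have := h2.map h.symm.continuous
    rw [h.symm_apply_apply] at this
    exact this.symm
  have h4 : x ∈ F \ {x} := by
    rw [← hh]
    exact ⟨h.symm x, h3, h.apply_symm_apply x⟩
  exact h4.2 rfl

theorem infinite_quot [Infinite S] (hS : Thin S) : Infinite (SeparationQuotient S) := by
  by_contra hfin
  rw [not_infinite_iff_finite] at hfin
  have : (SeparationQuotient.mk ⁻¹' (univ : Set (SeparationQuotient S)) : Set S).Finite := by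
    refine Set.Finite.preimage' (finite_univ) ?_
    rintro b -
    obtain ⟨x, rfl⟩ := SeparationQuotient.surjective_mk b
    refine (fibre_finite hS x).subset ?_
    intro y hy
    exact SeparationQuotient.mk_eq_mk.1 hy
  rw [preimage_univ] at this
  exact infinite_univ this

/-- Specialization is symmetric in a thin space. -/
theorem specializes_symm (hS : Thin S) {x y : S} (h : x ∈ closure ({y} : Set S)) :
    Inseparable x y := by
  have h1 := t1_of_thin (thin_quot hS)
  have h2 : SeparationQuotient.mk x ∈ closure ({SeparationQuotient.mk y} : Set _) := by
    rw [← image_singleton, ← SeparationQuotient.image_mk_closure]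
    exact mem_image_of_mem _ h
  rw [closure_singleton] at h2
  exact SeparationQuotient.mk_eq_mk.1 h2

end Pool.Agent.R728.TH
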