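import Pool.Agent.R728.TH.Cases

set_option autoImplicit false

open Set Topology Filter Function

namespace Pool.Agent.R728.TH

variable {S : Type*} [TopologicalSpace S]

/-- Regular open sets. -/
def Reg (A : Set S) : Prop := IsOpen A ∧ interior (closure A) ⊆ A

theorem Reg.interior_closure (A : Set S) : Reg (interior (closure A)) :=
  ⟨isOpen_interior, interior_mono (closure_minimal interior_subset isClosed_closure)⟩

theorem Reg.inter {A B : Set S} (hA : Reg A) (hB : Reg B) : Reg (A ∩ B) :=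
  ⟨hA.1.inter hB.1, subset_inter
    ((interior_mono (closure_mono inter_subset_left)).trans hA.2)
    ((interior_mono (closure_mono inter_subset_right)).trans hB.2)⟩

theorem Reg.compl_closure {A : Set S} (hA : IsOpen A) : Reg ((closure A)ᶜ) := by
  refine ⟨isClosed_closure.isOpen_compl, ?_⟩
  rw [closure_compl, interior_compl, compl_subset_compl]
  exact closure_mono (interior_maximal subset_closure hA)

/-- A regular open set is not homeomorphic to a proper regular open subset of itself. -/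
theorem Reg.finite_type (hS : Thin S) {N : Set S} (hN : Reg N) (g : S ≃ₜ S) (h : g '' N ⊆ N) :
    g '' N = N := by
  refine h.antisymm ?_
  set M : Set S := (closure N)ᶜ with hM
  have hMo : IsOpen M := isClosed_closure.isOpen_compl
  have hMN : Disjoint M N := disjoint_left.2 fun x hx hx' => hx (subset_closure hx')
  have hgo : IsOpen (g '' N) := g.isOpenMap _ hN.1
  obtain ⟨k, hk⟩ := hS _ _ (glue2 (Sep.of_open hMo hN.1 hMN)
    (Sep.of_open hMo hgo (hMN.mono_right h)) ⟨Homeomorph.refl _⟩ (nonempty_image_homeo g N))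
  have hd : closure (M ∪ N) = univ := by
    refine eq_univ_of_forall fun x => ?_
    by_cases hx : x ∈ closure N
    · exact closure_mono subset_union_right hx
    · exact subset_closure (Or.inl hx)
  have hd' : closure (M ∪ g '' N) = univ := by
    rw [← hk, ← k.image_closure, hd, image_univ, k.surjective.range_eq]
  have h1 : N ⊆ closure (g '' N) := by
    intro x hx
    have hx' : x ∈ closure (M ∪ g '' N) := hd' ▸ mem_univ x
    rw [mem_closure_iff] at hx' ⊢
    intro W hW hxW
    obtain ⟨y, hy, hy'⟩ := hx' (W ∩ N) (hW.inter hN.1) ⟨hxW, hx⟩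
    rcases hy' with hy' | hy'
    · exact absurd hy.2 (disjoint_left.1 hMN hy')
    · exact ⟨y, hy.1, hy'⟩
  have h2 : N ⊆ interior (closure (g '' N)) := interior_maximal h1 hN.1
  rw [int_cl_image] at h2
  exact h2.trans (image_mono hN.2)

theorem Reg.isPreconnected [T1Space S] [Infinite S] (hS : Thin S) {A : Set S} (hA : Reg A) :
    IsPreconnected A := by
  rw [isPreconnected_iff_subset_of_disjoint]
  intro u v hu hv hAuv hAi
  by_contra hcon
  push Not at hcon
  obtain ⟨h1, h2⟩ := hcon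
  obtain ⟨x, hx, hxu⟩ := not_subset.1 h1
  obtain ⟨y, hy, hyv⟩ := not_subset.1 h2
  have hxv : x ∈ v := (hAuv hx).resolve_left hxu
  have hyu : y ∈ u := (hAuv hy).resolve_right hyv
  have hAe : (A ∩ u) ∪ (A ∩ v) = A := by
    rw [← inter_union_distrib_left]
    exact inter_eq_left.2 hAuv
  refine regOpen_main hS (hA.1.inter hu) (hA.1.inter hv) ?_ ⟨y, hy, hyu⟩ ⟨x, hx, hxv⟩ ?_
  · refine disjoint_left.2 fun z hz hz' => ?_
    have : z ∈ A ∩ (u ∩ v) := ⟨hz.1, hz.2, hz'.2⟩
    rw [hAi] at this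
    exact this
  · rw [hAe]
    exact hA.2

/-- A regular open set is equivalent to its complement. -/
theorem Reg.compl_equiv [T1Space S] [Infinite S] (hS : Thin S) {A : Set S} (hA : Reg A)
    (hAn : A.Nonempty) (hBn : ((closure A)ᶜ).Nonempty) : ∃ h : S ≃ₜ S, h '' A = (closure A)ᶜ := by
  set B : Set S := (closure A)ᶜ with hB
  have hBr : Reg B := Reg.compl_closure hA.1
  have hAB : Disjoint A B := disjoint_left.2 fun x hx hx' => hx' (subset_closure hx)
  obtain ⟨q, hq⟩ := hAn
  obtain ⟨q', hq'⟩ := hBn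
  set X : Set S := (A ∪ B)ᶜ with hX
  have hXc : IsClosed X := (hA.1.union hBr.1).isClosed_compl
  have hsep : ∀ z ∈ A ∪ B, Sep X {z} := by
    intro z hz
    refine Sep.of_closure ?_ ?_
    · rw [closure_singleton]
      exact disjoint_singleton_right.2 fun h => h hz
    · rw [hXc.closure_eq]
      exact disjoint_singleton_left.2 fun h => h hz
  obtain ⟨h, hh⟩ := hS _ _ (glue2 (hsep q (Or.inl hq)) (hsep q' (Or.inr hq'))
    ⟨Homeomorph.refl _⟩ ⟨Homeomorph.homeomorphOfUnique _ _⟩)
  -- points of `A ∪ B` other than `q` go to points of `A ∪ B` other than `q'`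
  have key : ∀ z, z ∈ A ∪ B → z ≠ q → h z ∈ A ∪ B ∧ h z ≠ q' := by
    intro z hz hzq
    have h1 : h z ∉ X ∪ {q'} := by
      rw [← hh]
      intro h2
      rcases h.injective.mem_set_image.1 h2 with h3 | h3
      · exact h3 hz
      · exact hzq h3
    refine ⟨?_, fun e => h1 (Or.inr e)⟩
    by_contra h2
    exact h1 (Or.inl h2)
  have key' : ∀ z, z ∈ A ∪ B → z ≠ q' → h.symm z ∈ A ∪ B ∧ h.symm z ≠ q := by
    intro z hz hzq
    have h1 : h.symm z ∉ X ∪ {q} := by
      intro h2
      have h3 : z ∈ h '' (X ∪ {q}) := ⟨h.symm z, h2, h.apply_symm_apply z⟩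
      rw [hh] at h3
      rcases h3 with h3 | h3
      · exact h3 hz
      · exact hzq h3
    refine ⟨?_, fun e => h1 (Or.inr e)⟩
    by_contra h2
    exact h1 (Or.inl h2)
  have hqB : q ∉ B := disjoint_left.1 hAB hq
  have hq'A : q' ∉ A := fun h => disjoint_left.1 hAB h hq'
  -- `h '' B ⊆ A`
  have c1 : h '' B ⊆ A := by
    have hpc : IsPreconnected (h '' B) := (hBr.isPreconnected hS).image h h.continuous.continuousOn
    have hsub : h '' B ⊆ A ∪ B := by
      rintro _ ⟨z, hz, rfl⟩
      exact (key z (Or.inr hz) (fun e => hqB (e ▸ hz))).1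
    have hdis : h '' B ∩ (A ∩ B) = ∅ := by
      rw [hAB.inter_eq, inter_empty]
    rcases isPreconnected_iff_subset_of_disjoint.1 hpc A B hA.1 hBr.1 hsub hdis with h1 | h1
    · exact h1
    · exfalso
      have h2 := hBr.finite_type hS h h1
      have h3 : q' ∈ h '' B := h2.symm ▸ hq'
      obtain ⟨z, hz, hz'⟩ := h3
      exact (key z (Or.inr hz) (fun e => hqB (e ▸ hz))).2 hz'
  have c2 : h.symm '' A ⊆ B := by
    have hpc : IsPreconnected (h.symm '' A) :=
      (hA.isPreconnected hS).image h.symm h.symm.continuous.continuousOn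
    have hsub : h.symm '' A ⊆ A ∪ B := by
      rintro _ ⟨z, hz, rfl⟩
      exact (key' z (Or.inl hz) (fun e => hq'A (e ▸ hz))).1
    have hdis : h.symm '' A ∩ (A ∩ B) = ∅ := by
      rw [hAB.inter_eq, inter_empty]
    rcases isPreconnected_iff_subset_of_disjoint.1 hpc A B hA.1 hBr.1 hsub hdis with h1 | h1
    · exfalso
      have h2 := hA.finite_type hS h.symm h1
      have h3 : q ∈ h.symm '' A := h2.symm ▸ hq
      obtain ⟨z, hz, hz'⟩ := h3
      exact (key' z (Or.inl hz) (fun e => hq'A (e ▸ hz))).2 hz'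
    · exact h1
  refine ⟨h.symm, c2.antisymm ?_⟩
  intro z hz
  exact ⟨h z, c1 (mem_image_of_mem _ hz), h.symm_apply_apply z⟩

/-- An infinite thin `T₁` space is hyperconnected. -/
theorem hyper_T1 [T1Space S] [Infinite S] (hS : Thin S) {U V : Set S} (hU : IsOpen U)
    (hV : IsOpen V) (hUn : U.Nonempty) (hVn : V.Nonempty) : (U ∩ V).Nonempty := by
  by_contra hcon
  rw [not_nonempty_iff_eq_empty, ← disjoint_iff_inter_eq_empty] at hcon
  obtain ⟨u, hu⟩ := hUn
  obtain ⟨v, hv⟩ := hVn
  have huv : u ≠ v := fun e => disjoint_left.1 hcon hu (e ▸ hv)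
  have haus : ∀ x y : S, x ≠ y → ∃ P Q : Set S, IsOpen P ∧ IsOpen Q ∧ x ∈ P ∧ y ∈ Q ∧
      Disjoint P Q := by
    intro x y hxy
    obtain ⟨h, ⟨h1, h2⟩ | ⟨h1, h2⟩⟩ := pair_homog hS huv hxy
    · exact ⟨h '' U, h '' V, h.isOpenMap _ hU, h.isOpenMap _ hV, ⟨u, hu, h1⟩, ⟨v, hv, h2⟩,
        (disjoint_image_iff h.injective).2 hcon⟩
    · exact ⟨h '' V, h '' U, h.isOpenMap _ hV, h.isOpenMap _ hU, ⟨v, hv, h2⟩, ⟨u, hu, h1⟩,
        (disjoint_image_iff h.injective).2 hcon.symm⟩
  set A : Set S := interior (closure U) with hA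
  have hAr : Reg A := Reg.interior_closure U
  have hUA : U ⊆ A := interior_maximal subset_closure hU
  have hAV : Disjoint A V := (hcon.closure_left hV).mono_left interior_subset
  have hex : ∃ y ∈ A, y ≠ u := by
    by_contra hc
    push Not at hc
    have : A = {u} := eq_singleton_iff_unique_mem.2 ⟨hUA hu, hc⟩
    exact not_isOpen_singleton hS u (this ▸ hAr.1)
  obtain ⟨y, hy, hyu⟩ := hex
  obtain ⟨P, Q, hP, hQ, huP, hyQ, hPQ⟩ := haus u y hyu.symm
  set A' : Set S := A ∩ interior (closure P) with hA'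
  have hA'r : Reg A' := hAr.inter (Reg.interior_closure P)
  have huA' : u ∈ A' := ⟨hUA hu, interior_maximal subset_closure hP huP⟩
  have hyA' : y ∉ A' := fun h =>
    disjoint_left.1 (hPQ.closure_left hQ) (interior_subset h.2) hyQ
  have hvA : v ∈ (closure A)ᶜ := fun h => disjoint_left.1 (hAV.closure_left hV) h hv
  have hcc : (closure A)ᶜ ⊆ (closure A')ᶜ := compl_subset_compl.2 (closure_mono inter_subset_left)
  obtain ⟨h, hh⟩ := hAr.compl_equiv hS ⟨u, hUA hu⟩ ⟨v, hvA⟩
  obtain ⟨h', hh'⟩ := hA'r.compl_equiv hS ⟨u, huA'⟩ ⟨v, hcc hvA⟩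
  have hg : (h.trans h'.symm) '' A ⊆ A' := by
    rintro _ ⟨z, hz, rfl⟩
    have h1 : h z ∈ (closure A')ᶜ := hcc (hh ▸ mem_image_of_mem _ hz)
    rw [← hh'] at h1
    obtain ⟨w, hw, hw'⟩ := h1
    show h'.symm (h z) ∈ A'
    rw [← hw', h'.symm_apply_apply]
    exact hw
  have hg' := hAr.finite_type hS (h.trans h'.symm) (hg.trans inter_subset_left)
  exact hyA' (hg (hg'.symm ▸ hy))

end Pool.Agent.R728.TH
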