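import Pool.Agent.R728.TH.Basic

set_option autoImplicit false

open Set Topology Filter Function

namespace Pool.Agent.R728.TH

variable {S : Type*} [TopologicalSpace S]

theorem homeo_of {X Y : Set S} (f g : S → S) (hf : MapsTo f X Y) (hg : MapsTo g Y X)
    (h1 : ∀ x ∈ X, g (f x) = x) (h2 : ∀ y ∈ Y, f (g y) = y) (cf : ContinuousOn f X)
    (cg : ContinuousOn g Y) : Nonempty (X ≃ₜ Y) :=
  ⟨{ toFun := fun x => ⟨f x, hf x.2⟩
     invFun := fun y => ⟨g y, hg y.2⟩
     left_inv := fun x => Subtype.ext (h1 x x.2)
     right_inv := fun y => Subtype.ext (h2 y y.2)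
     continuous_toFun := continuous_induced_rng.2 (continuousOn_iff_continuous_restrict.1 cf)
     continuous_invFun := continuous_induced_rng.2 (continuousOn_iff_continuous_restrict.1 cg) }⟩

/-! ### the specialization order -/

theorem mem_closure_singleton_trans {x y z : S} (h1 : x ∈ closure ({y} : Set S))
    (h2 : y ∈ closure ({z} : Set S)) : x ∈ closure ({z} : Set S) :=
  closure_minimal (singleton_subset_iff.2 h2) isClosed_closure h1

theorem mem_closure_singleton_antisymm [T0Space S] {x y : S} (h1 : x ∈ closure ({y} : Set S))
    (h2 : y ∈ closure ({x} : Set S)) : x = y :=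
  ((specializes_iff_mem_closure.2 h2).antisymm (specializes_iff_mem_closure.2 h1)).eq

theorem mem_closure_singleton_image (h : S ≃ₜ S) {x y : S} :
    h x ∈ closure ({h y} : Set S) ↔ x ∈ closure ({y} : Set S) := by
  rw [← image_singleton, ← h.image_closure]
  exact h.injective.mem_set_image

theorem mem_open_of_mem_closure_singleton {x y : S} (h1 : x ∈ closure ({y} : Set S)) {t : Set S}
    (ht : IsOpen t) (hx : x ∈ t) : y ∈ t := by
  obtain ⟨z, hz, hz'⟩ := mem_closure_iff.1 h1 t ht hx
  rw [mem_singleton_iff] at hz'
  exact hz' ▸ hz

theorem step [T0Space S] (hS : Thin S) {x y : S} (hxy : x ∈ closure ({y} : Set S)) (hne : x ≠ y)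
    (E : Set S) (hE : ∀ c ∈ E, y ∈ closure ({c} : Set S)) (hy : y ∉ E) :
    ∃ h : S ≃ₜ S, h y = x ∧ h '' E = E := by
  classical
  have hxE : ∀ c ∈ E, x ∈ closure ({c} : Set S) := fun c hc =>
    mem_closure_singleton_trans hxy (hE c hc)
  have hx : x ∉ E := fun hx => hne (mem_closure_singleton_antisymm hxy (hE x hx))
  have hEx : ∀ c ∈ E, c ∉ closure ({x} : Set S) := fun c hc h =>
    hx ((mem_closure_singleton_antisymm (hxE c hc) h) ▸ hc)
  have hEy : ∀ c ∈ E, c ∉ closure ({y} : Set S) := fun c hc h =>
    hy ((mem_closure_singleton_antisymm (hE c hc) h) ▸ hc)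
  obtain ⟨h, hh⟩ := hS (insert y E) (insert x E) <| by
    refine homeo_of (fun z => if z = y then x else z) (fun z => if z = x then y else z) ?_ ?_ ?_ ?_
      ?_ ?_
    · rintro z (rfl | hz)
      · simp
      · have : z ≠ y := fun h => hy (h ▸ hz)
        simp [this, hz]
    · rintro z (rfl | hz)
      · simp
      · have : z ≠ x := fun h => hx (h ▸ hz)
        simp [this, hz]
    · rintro z (rfl | hz)
      · simp
      · have h1 : z ≠ y := fun h => hy (h ▸ hz)
        have h2 : z ≠ x := fun h => hx (h ▸ hz)
        simp [h1, h2]
    · rintro z (rfl | hz)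
      · simp
      · have h1 : z ≠ y := fun h => hy (h ▸ hz)
        have h2 : z ≠ x := fun h => hx (h ▸ hz)
        simp [h1, h2]
    · refine continuousOn_iff'.2 fun t ht => ?_
      by_cases hxt : x ∈ t
      · refine ⟨univ, isOpen_univ, ?_⟩
        rw [univ_inter]
        refine inter_eq_right.2 ?_
        rintro z (rfl | hz)
        · simpa using hxt
        · have h1 : z ≠ y := fun h => hy (h ▸ hz)
          simpa [h1] using mem_open_of_mem_closure_singleton (hxE z hz) ht hxt
      · refine ⟨t ∩ (closure {y})ᶜ, ht.inter isClosed_closure.isOpen_compl, ?_⟩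
        ext z
        constructor
        · rintro ⟨h1, rfl | hz⟩
          · exact absurd (by simpa using h1) hxt
          · have h2 : z ≠ y := fun h => hy (h ▸ hz)
            exact ⟨⟨by simpa [h2] using h1, hEy z hz⟩, Or.inr hz⟩
        · rintro ⟨⟨h1, h1'⟩, rfl | hz⟩
          · exact absurd (subset_closure (mem_singleton _)) h1'
          · have h2 : z ≠ y := fun h => hy (h ▸ hz)
            exact ⟨by simpa [h2] using h1, Or.inr hz⟩
    · refine continuousOn_iff'.2 fun t ht => ?_
      by_cases hyt : y ∈ t
      · refine ⟨univ, isOpen_univ, ?_⟩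
        rw [univ_inter]
        refine inter_eq_right.2 ?_
        rintro z (rfl | hz)
        · simpa using hyt
        · have h1 : z ≠ x := fun h => hx (h ▸ hz)
          simpa [h1] using mem_open_of_mem_closure_singleton (hE z hz) ht hyt
      · refine ⟨t ∩ (closure {x})ᶜ, ht.inter isClosed_closure.isOpen_compl, ?_⟩
        ext z
        constructor
        · rintro ⟨h1, rfl | hz⟩
          · exact absurd (by simpa using h1) hyt
          · have h2 : z ≠ x := fun h => hx (h ▸ hz)
            exact ⟨⟨by simpa [h2] using h1, hEx z hz⟩, Or.inr hz⟩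
        · rintro ⟨⟨h1, h1'⟩, rfl | hz⟩
          · exact absurd (subset_closure (mem_singleton _)) h1'
          · have h2 : z ≠ x := fun h => hx (h ▸ hz)
            exact ⟨by simpa [h2] using h1, Or.inr hz⟩
  have hyx : h y = x := by
    have h1 : x ∈ h '' (insert y E) := by rw [hh]; exact mem_insert _ _
    obtain ⟨a, ha, hax⟩ := h1
    have h2 : h y ∈ insert x E := by rw [← hh]; exact mem_image_of_mem _ (mem_insert _ _)
    have h3 : y ∈ closure ({a} : Set S) := by
      rcases ha with rfl | ha
      · exact subset_closure rfl
      · exact hE a ha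
    have h4 : h y ∈ closure ({x} : Set S) := by
      rw [← hax]
      exact (mem_closure_singleton_image h).2 h3
    have h5 : x ∈ closure ({h y} : Set S) := by
      rcases h2 with h2 | h2
      · rw [h2]; exact subset_closure rfl
      · exact hxE _ h2
    exact mem_closure_singleton_antisymm h4 h5
  refine ⟨h, hyx, ?_⟩
  have e1 : E = insert y E \ {y} := by
    rw [insert_diff_of_mem _ (mem_singleton y), diff_singleton_eq_self hy]
  have e2 : E = insert x E \ {x} := by
    rw [insert_diff_of_mem _ (mem_singleton x), diff_singleton_eq_self hx]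
  calc h '' E = h '' (insert y E \ {y}) := by rw [← e1]
    _ = h '' (insert y E) \ h '' {y} := image_diff h.injective _ _
    _ = insert x E \ {x} := by rw [hh, image_singleton, hyx]
    _ = E := e2.symm

/-- A thin `T₀` space is `T₁`. -/
theorem t1_of_thin [T0Space S] (hS : Thin S) : T1Space S := by
  classical
  by_contra hT1
  have : ∃ x y : S, x ≠ y ∧ x ∈ closure ({y} : Set S) := by
    by_contra hcon
    push Not at hcon
    apply hT1
    refine ⟨fun y => ?_⟩
    refine isClosed_of_closure_subset fun x hx => ?_
    by_contra hne
    exact hcon x y hne hx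
  obtain ⟨x, y, hne, hxy⟩ := this
  have hch : IsChain (fun a b : S => a ∈ closure ({b} : Set S)) {x, y} := by
    rintro a (rfl | rfl) b (rfl | rfl) hab
    · exact absurd rfl hab
    · exact Or.inl hxy
    · exact Or.inr hxy
    · exact absurd rfl hab
  obtain ⟨M, ⟨hM, hmax⟩, hsub⟩ := hch.exists_maxChain
  have hyM : y ∈ M := hsub (by simp)
  set E : Set S := {c | c ∈ M ∧ y ∈ closure ({c} : Set S) ∧ c ≠ y} with hEdef
  have hE : ∀ c ∈ E, y ∈ closure ({c} : Set S) := fun c hc => hc.2.1
  have hyE : y ∉ E := fun h => h.2.2 rfl
  have ins : ∀ w, y ∈ closure ({w} : Set S) → (∀ c ∈ E, w ∈ closure ({c} : Set S)) → w ∈ M := by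
    intro w h1 h2
    have h3 : IsChain (fun a b : S => a ∈ closure ({b} : Set S)) (insert w M) := by
      refine hM.insert fun c hc _ => ?_
      by_cases hcy : c = y
      · subst hcy
        exact Or.inr h1
      · rcases hM hc hyM hcy with h | h
        · exact Or.inr (mem_closure_singleton_trans h h1)
        · exact Or.inl (h2 c ⟨hc, h, hcy⟩)
    rw [hmax h3 (subset_insert _ _)]
    exact mem_insert _ _
  by_cases hleast : ∃ z ∈ E, ∀ c ∈ E, z ∈ closure ({c} : Set S)
  · obtain ⟨z, hz, hz'⟩ := hleast
    obtain ⟨h, h1, h2⟩ := step hS hxy hne {z} (by rintro c rfl; exact hE c hz)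
      (fun h => hyE ((mem_singleton_iff.1 h) ▸ hz))
    rw [image_singleton, singleton_eq_singleton_iff] at h2
    set w := h.symm y with hw
    have hwy : h w = y := by simp [hw]
    have a1 : y ∈ closure ({w} : Set S) := by
      rw [← mem_closure_singleton_image h, h1, hwy]; exact hxy
    have a2 : w ∈ closure ({z} : Set S) := by
      rw [← mem_closure_singleton_image h, h2, hwy]; exact hE z hz
    have a3 : w ∈ M := ins w a1 fun c hc => mem_closure_singleton_trans a2 (hz' c hc)
    have a4 : w ≠ y := fun e => hne (h1.symm.trans ((congrArg h e).symm.trans hwy))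
    have a5 : w ∈ E := ⟨a3, a1, a4⟩
    have a6 : w = z := mem_closure_singleton_antisymm a2 (hz' w a5)
    rw [a6, h2] at hwy
    exact hyE (hwy ▸ hz)
  · obtain ⟨h, h1, h2⟩ := step hS hxy hne E hE hyE
    set w := h.symm y with hw
    have hwy : h w = y := by simp [hw]
    have a1 : y ∈ closure ({w} : Set S) := by
      rw [← mem_closure_singleton_image h, h1, hwy]; exact hxy
    have a2 : ∀ c ∈ E, w ∈ closure ({c} : Set S) := by
      intro c hc
      rw [← mem_closure_singleton_image h, hwy]
      refine hE _ ?_
      rw [← h2]
      exact mem_image_of_mem _ hc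
    have a3 : w ∈ M := ins w a1 a2
    have a4 : w ≠ y := fun e => hne (h1.symm.trans ((congrArg h e).symm.trans hwy))
    exact hleast ⟨w, ⟨a3, a1, a4⟩, a2⟩

/-! ### passage to the `T₀` quotient -/

theorem exists_lift_homeo (h : S ≃ₜ S) :
    ∃ k : SeparationQuotient S ≃ₜ SeparationQuotient S,
      ∀ x, k (SeparationQuotient.mk x) = SeparationQuotient.mk (h x) := by
  refine ⟨{ toFun := SeparationQuotient.lift (fun x => SeparationQuotient.mk (h x))
              (fun x y hxy => SeparationQuotient.mk_eq_mk.2 (hxy.map h.continuous))
            invFun := SeparationQuotient.lift (fun x => SeparationQuotient.mk (h.symm x))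
              (fun x y hxy => SeparationQuotient.mk_eq_mk.2 (hxy.map h.symm.continuous))
            left_inv := ?_
            right_inv := ?_
            continuous_toFun := ?_
            continuous_invFun := ?_ }, ?_⟩
  · refine SeparationQuotient.forall.2 fun x => ?_
    simp
  · refine SeparationQuotient.forall.2 fun x => ?_
    simp
  · exact SeparationQuotient.continuous_lift_iff.2 (SeparationQuotient.continuous_mk.comp h.continuous)
  · exact SeparationQuotient.continuous_lift_iff.2
      (SeparationQuotient.continuous_mk.comp h.symm.continuous)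
  · intro x
    rfl

theorem thin_quot (hS : Thin S) : Thin (SeparationQuotient S) := by
  classical
  rintro A B ⟨f⟩
  set A' : Set S := SeparationQuotient.mk ⁻¹' A with hA'
  set B' : Set S := SeparationQuotient.mk ⁻¹' B with hB'
  let p : A' → A := fun x => ⟨SeparationQuotient.mk (x : S), x.2⟩
  let q : B' → B := fun x => ⟨SeparationQuotient.mk (x : S), x.2⟩
  have hp : IsInducing p := by
    refine IsInducing.of_comp (g := Subtype.val) ?_ continuous_subtype_val ?_
    · exact (SeparationQuotient.continuous_mk.comp continuous_subtype_val).subtype_mk _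
    · exact SeparationQuotient.isInducing_mk.comp IsInducing.subtypeVal
  have hq : IsInducing q := by
    refine IsInducing.of_comp (g := Subtype.val) ?_ continuous_subtype_val ?_
    · exact (SeparationQuotient.continuous_mk.comp continuous_subtype_val).subtype_mk _
    · exact SeparationQuotient.isInducing_mk.comp IsInducing.subtypeVal
  have fib : ∀ a : A, Nonempty ({x : A' // p x = a} ≃ {x : B' // q x = f a}) := by
    intro a
    obtain ⟨x, hx⟩ := SeparationQuotient.surjective_mk (a : SeparationQuotient S)
    obtain ⟨y, hy⟩ := SeparationQuotient.surjective_mk (f a : SeparationQuotient S)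
    obtain ⟨h, hh⟩ := hS.homog x y
    have e1 : ∀ z : S, SeparationQuotient.mk z = (a : SeparationQuotient S) →
        SeparationQuotient.mk (h z) = (f a : SeparationQuotient S) := by
      intro z hz
      rw [← hx] at hz
      have := (SeparationQuotient.mk_eq_mk.1 hz).map h.continuous
      rw [hh] at this
      rw [SeparationQuotient.mk_eq_mk.2 this, hy]
    have e2 : ∀ z : S, SeparationQuotient.mk z = (f a : SeparationQuotient S) →
        SeparationQuotient.mk (h.symm z) = (a : SeparationQuotient S) := by
      intro z hz
      rw [← hy] at hz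
      have := (SeparationQuotient.mk_eq_mk.1 hz).map h.symm.continuous
      rw [← hh, h.symm_apply_apply] at this
      rw [SeparationQuotient.mk_eq_mk.2 this, hx]
    refine ⟨{ toFun := fun z => ⟨⟨h z.1.1, ?_⟩, ?_⟩
              invFun := fun z => ⟨⟨h.symm z.1.1, ?_⟩, ?_⟩
              left_inv := ?_
              right_inv := ?_ }⟩
    · show SeparationQuotient.mk _ ∈ B
      rw [e1 _ (congrArg Subtype.val z.2)]
      exact (f a).2
    · exact Subtype.ext (e1 _ (congrArg Subtype.val z.2))
    · show SeparationQuotient.mk _ ∈ A
      rw [e2 _ (congrArg Subtype.val z.2)]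
      exact a.2
    · exact Subtype.ext (e2 _ (congrArg Subtype.val z.2))
    · rintro ⟨⟨z, h1⟩, h2⟩
      simp
    · rintro ⟨⟨z, h1⟩, h2⟩
      simp
  let F : A' ≃ B' := (Equiv.sigmaFiberEquiv p).symm.trans
    ((Equiv.sigmaCongr f.toEquiv (fun a => (fib a).some)).trans (Equiv.sigmaFiberEquiv q))
  have hF : ∀ x, q (F x) = f (p x) := by
    intro x
    have : ∀ w : (Σ b : B, {x : B' // q x = b}), q (Equiv.sigmaFiberEquiv q w) = w.1 := by
      rintro ⟨b, ⟨y, hy⟩⟩
      exact hy
    exact this _
  have hF' : ∀ y, p (F.symm y) = f.symm (q y) := by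
    intro y
    have := hF (F.symm y)
    rw [F.apply_symm_apply] at this
    rw [this, f.symm_apply_apply]
  obtain ⟨h, hh⟩ := hS A' B' ⟨{ toEquiv := F
                                continuous_toFun := by
                                  rw [hq.continuous_iff]
                                  have : q ∘ F.toFun = f ∘ p := funext hF
                                  rw [this]
                                  exact f.continuous.comp hp.continuous
                                continuous_invFun := by
                                  rw [hp.continuous_iff]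
                                  have : p ∘ F.invFun = f.symm ∘ q := funext hF'
                                  rw [this]
                                  exact f.symm.continuous.comp hq.continuous }⟩
  obtain ⟨k, hk⟩ := exists_lift_homeo h
  refine ⟨k, ?_⟩
  have e1 : A = SeparationQuotient.mk '' A' :=
    (image_preimage_eq A SeparationQuotient.surjective_mk).symm
  have e2 : B = SeparationQuotient.mk '' B' :=
    (image_preimage_eq B SeparationQuotient.surjective_mk).symm
  rw [e1, e2, ← hh, image_image, image_image]
  simp only [hk]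

end Pool.Agent.R728.TH
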