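import Pool.Agent.R728.TH.Fib

set_option autoImplicit false

open Set Topology Filter Function

namespace Pool.Agent.R728.TH

variable {S : Type*} [TopologicalSpace S]

theorem homeo_of_discrete {A B : Set S} [DiscreteTopology A] [DiscreteTopology B] (e : A ≃ B) :
    Nonempty (A ≃ₜ B) :=
  ⟨{ toEquiv := e
     continuous_toFun := continuous_of_discreteTopology
     continuous_invFun := continuous_of_discreteTopology }⟩

theorem not_isOpen_singleton [Infinite S] (hS : Thin S) (x : S) : ¬ IsOpen ({x} : Set S) := by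
  intro hx
  have hall : ∀ y : S, IsOpen ({y} : Set S) := by
    intro y
    obtain ⟨h, hh⟩ := hS.homog x y
    rw [← hh, ← image_singleton]
    exact h.isOpenMap _ hx
  have : DiscreteTopology S := discreteTopology_iff_isOpen_singleton.2 hall
  obtain ⟨e⟩ := equiv_diff_singleton (infinite_univ (α := S)) (mem_univ x)
  obtain ⟨h, hh⟩ := hS univ (univ \ {x}) (homeo_of_discrete e)
  rw [image_univ, h.surjective.range_eq] at hh
  have : x ∈ univ \ {x} := hh ▸ mem_univ x
  exact this.2 rfl

theorem pair_homog [T1Space S] (hS : Thin S) {x y u v : S} (hxy : x ≠ y) (huv : u ≠ v) :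
    ∃ h : S ≃ₜ S, (h x = u ∧ h y = v) ∨ (h x = v ∧ h y = u) := by
  have hc : Nat.card ({x, y} : Set S) = Nat.card ({u, v} : Set S) := by
    rw [Nat.card_coe_set_eq, Nat.card_coe_set_eq, ncard_pair hxy, ncard_pair huv]
  obtain ⟨e⟩ := Finite.card_eq.1 hc
  obtain ⟨h, hh⟩ := hS _ _ (homeo_of_discrete e)
  rw [image_pair] at hh
  have h1 : h x = u ∨ h x = v := by
    have : h x ∈ ({u, v} : Set S) := by rw [← hh]; simp
    simpa using this
  have h2 : h y = u ∨ h y = v := by
    have : h y ∈ ({u, v} : Set S) := by rw [← hh]; simp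
    simpa using this
  have h3 : h x ≠ h y := fun e => hxy (h.injective e)
  refine ⟨h, ?_⟩
  rcases h1 with h1 | h1 <;> rcases h2 with h2 | h2
  · exact absurd (h1.trans h2.symm) h3
  · exact Or.inl ⟨h1, h2⟩
  · exact Or.inr ⟨h1, h2⟩
  · exact absurd (h1.trans h2.symm) h3

theorem int_cl_image (h : S ≃ₜ S) (X : Set S) :
    interior (closure (h '' X)) = h '' interior (closure X) := by
  rw [← h.image_closure, ← h.image_interior]

/-- In a thin space with a disconnected regular open set the closures of open sets are open. -/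
theorem split_ED (hS : Thin S) {A B : Set S} (hA : IsOpen A) (hB : IsOpen B) (hd : Disjoint A B)
    (hAn : A.Nonempty) (hBn : B.Nonempty) (hr : interior (closure (A ∪ B)) ⊆ A ∪ B)
    (Q : Set S) (hQ : IsOpen Q) : IsOpen (closure Q) := by
  have hclA : Disjoint (closure A) B := hd.closure_left hB
  have hclB : Disjoint A (closure B) := hd.closure_right hA
  have rA : interior (closure A) ⊆ A := by
    intro x hx
    rcases hr (interior_mono (closure_mono subset_union_left) hx) with h | h
    · exact h
    · exact absurd h (disjoint_left.1 hclA (interior_subset hx))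
  have rB : interior (closure B) ⊆ B := by
    intro x hx
    rcases hr (interior_mono (closure_mono subset_union_right) hx) with h | h
    · exact absurd (interior_subset hx) (disjoint_left.1 hclB h)
    · exact h
  by_contra hcl
  obtain ⟨p, hp, hp'⟩ : ∃ p ∈ closure Q, p ∉ interior (closure Q) := by
    by_contra hcon
    push Not at hcon
    exact hcl (subset_interior_iff_isOpen.1 hcon)
  obtain ⟨a, ha⟩ := hAn
  obtain ⟨b, hb⟩ := hBn
  obtain ⟨g₁, hg₁⟩ := hS.homog a p
  obtain ⟨g₂, hg₂⟩ := hS.homog b p
  set O : Set S := g₁ '' A ∩ g₂ '' B with hO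
  have hOo : IsOpen O := (g₁.isOpenMap _ hA).inter (g₂.isOpenMap _ hB)
  have hpO : p ∈ O := ⟨⟨a, ha, hg₁⟩, ⟨b, hb, hg₂⟩⟩
  have rO : interior (closure O) ⊆ O := by
    intro x hx
    refine ⟨?_, ?_⟩
    · have := interior_mono (closure_mono inter_subset_left) hx
      rw [int_cl_image] at this
      exact image_mono rA this
    · have := interior_mono (closure_mono inter_subset_right) hx
      rw [int_cl_image] at this
      exact image_mono rB this
  set M : Set S := interior (closure Q) ∩ O with hM
  set N : Set S := O ∩ (closure Q)ᶜ with hN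
  have hMo : IsOpen M := isOpen_interior.inter hOo
  have hNo : IsOpen N := hOo.inter isClosed_closure.isOpen_compl
  have hMN : Disjoint M N := disjoint_left.2 fun x hx hx' => hx'.2 (interior_subset hx.1)
  have rM : interior (closure M) ⊆ M := by
    intro x hx
    refine ⟨?_, rO (interior_mono (closure_mono inter_subset_right) hx)⟩
    have h1 := interior_mono (closure_mono inter_subset_left) hx
    have h2 : closure (interior (closure Q)) ⊆ closure Q :=
      closure_minimal interior_subset isClosed_closure
    exact interior_mono h2 h1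
  have rN : interior (closure N) ⊆ N := by
    intro x hx
    refine ⟨rO (interior_mono (closure_mono inter_subset_left) hx), ?_⟩
    intro hxQ
    have h1 : interior (closure N) ∩ Q = ∅ := by
      rw [← disjoint_iff_inter_eq_empty]
      have : Disjoint N Q := disjoint_left.2 fun y hy hy' => hy.2 (subset_closure hy')
      exact (this.closure_left hQ).mono_left interior_subset
    obtain ⟨y, hy⟩ := mem_closure_iff.1 hxQ _ isOpen_interior hx
    rw [h1] at hy
    exact hy
  have hOcl : O ⊆ closure (M ∪ N) := by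
    intro z hz
    by_cases hzQ : z ∈ closure Q
    · refine closure_mono subset_union_left ?_
      rw [mem_closure_iff]
      intro W hW hzW
      obtain ⟨y, hy, hyQ⟩ := mem_closure_iff.1 hzQ (W ∩ O) (hW.inter hOo) ⟨hzW, hz⟩
      exact ⟨y, hy.1, interior_maximal subset_closure hQ hyQ, hy.2⟩
    · exact subset_closure (Or.inr ⟨hz, hzQ⟩)
  have hpint : p ∈ interior (closure (M ∪ N)) := interior_maximal hOcl hOo hpO
  have hpMN : p ∉ M ∪ N := by
    rintro (h | h)
    · exact hp' h.1
    · exact h.2 hp
  have hA'A : g₁.symm '' M ⊆ A := by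
    rintro _ ⟨y, hy, rfl⟩
    obtain ⟨z, hz, hz'⟩ := hy.2.1
    rw [← hz', g₁.symm_apply_apply]
    exact hz
  have hB'B : g₂.symm '' N ⊆ B := by
    rintro _ ⟨y, hy, rfl⟩
    obtain ⟨z, hz, hz'⟩ := hy.1.2
    rw [← hz', g₂.symm_apply_apply]
    exact hz
  have hA'o : IsOpen (g₁.symm '' M) := g₁.symm.isOpenMap _ hMo
  have hB'o : IsOpen (g₂.symm '' N) := g₂.symm.isOpenMap _ hNo
  have hB''o : IsOpen (g₁.symm '' N) := g₁.symm.isOpenMap _ hNo
  obtain ⟨e⟩ := nonempty_image_homeo g₂.symm N
  obtain ⟨e'⟩ := nonempty_image_homeo g₁.symm N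
  obtain ⟨h, hh⟩ := hS _ _ (glue2 (Sep.of_open hA'o hB'o (hd.mono hA'A hB'B))
    (Sep.of_open hA'o hB''o ((disjoint_image_iff g₁.symm.injective).2 hMN))
    ⟨Homeomorph.refl _⟩ ⟨e.symm.trans e'⟩)
  have key : interior (closure (g₁.symm '' M ∪ g₂.symm '' N)) ⊆ g₁.symm '' M ∪ g₂.symm '' N := by
    intro x hx
    rcases hr (interior_mono (closure_mono (union_subset_union hA'A hB'B)) hx) with hxA | hxB
    · left
      have h1 : A ∩ interior (closure (g₁.symm '' M ∪ g₂.symm '' N)) ⊆ closure (g₁.symm '' M) := by
        rintro y ⟨hy, hy'⟩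
        have := interior_subset hy'
        rw [closure_union] at this
        rcases this with h | h
        · exact h
        · exact absurd (closure_mono hB'B h) (disjoint_left.1 hclB hy)
      have h2 : x ∈ interior (closure (g₁.symm '' M)) :=
        interior_maximal h1 (hA.inter isOpen_interior) ⟨hxA, hx⟩
      rw [int_cl_image] at h2
      exact image_mono rM h2
    · right
      have h1 : B ∩ interior (closure (g₁.symm '' M ∪ g₂.symm '' N)) ⊆ closure (g₂.symm '' N) := by
        rintro y ⟨hy, hy'⟩
        have := interior_subset hy'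
        rw [closure_union] at this
        rcases this with h | h
        · exact absurd hy (disjoint_left.1 hclA (closure_mono hA'A h))
        · exact h
      have h2 : x ∈ interior (closure (g₂.symm '' N)) :=
        interior_maximal h1 (hB.inter isOpen_interior) ⟨hxB, hx⟩
      rw [int_cl_image] at h2
      exact image_mono rN h2
  have key2 : interior (closure (g₁.symm '' (M ∪ N))) ⊆ g₁.symm '' (M ∪ N) := by
    rw [image_union, ← hh, int_cl_image]
    exact image_mono key
  rw [int_cl_image] at key2
  exact hpMN (g₁.symm.injective.mem_set_image.1 (key2 (mem_image_of_mem _ hpint)))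

theorem ED_disj (hED : ∀ Q : Set S, IsOpen Q → IsOpen (closure Q)) {A B : Set S} (hA : IsOpen A)
    (hB : IsOpen B) (hd : Disjoint A B) : Disjoint (closure A) (closure B) :=
  (hd.closure_left hB).closure_right (hED A hA)

theorem tot_sep [T1Space S] (hS : Thin S) (hED : ∀ Q : Set S, IsOpen Q → IsOpen (closure Q))
    {A B : Set S} (hA : IsOpen A) (hB : IsOpen B) (hd : Disjoint A B)
    (hAn : A.Nonempty) (hBn : B.Nonempty) {u v : S} (huv : u ≠ v) :
    ∃ Q : Set S, IsClopen Q ∧ u ∈ Q ∧ v ∉ Q := by
  obtain ⟨a, ha⟩ := hAn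
  obtain ⟨b, hb⟩ := hBn
  have hcl : IsClopen (closure A) := ⟨isClosed_closure, hED A hA⟩
  have hbA : b ∉ closure A := fun h => disjoint_left.1 (hd.closure_left hB) h hb
  have hab : a ≠ b := fun h => hbA (h ▸ subset_closure ha)
  obtain ⟨h, ⟨h1, h2⟩ | ⟨h1, h2⟩⟩ := pair_homog hS hab huv
  · refine ⟨h '' closure A, ⟨h.isClosedMap _ hcl.1, h.isOpenMap _ hcl.2⟩, ?_, ?_⟩
    · rw [← h1]; exact mem_image_of_mem _ (subset_closure ha)
    · rw [← h2]; exact fun h' => hbA (h.injective.mem_set_image.1 h')
  · refine ⟨(h '' closure A)ᶜ, ⟨(h.isOpenMap _ hcl.2).isClosed_compl,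
      (h.isClosedMap _ hcl.1).isOpen_compl⟩, ?_, ?_⟩
    · rw [← h2]; exact fun h' => hbA (h.injective.mem_set_image.1 h')
    · rw [← h1]; exact fun h' => h' (mem_image_of_mem _ (subset_closure ha))

end Pool.Agent.R728.TH
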